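import Mathlib

/-!
# Averages of bounded functions on the plane along segments
-/

open MeasureTheory Set

namespace Pool.Agent.H2.Crit

/-- The Euclidean plane. -/
abbrev Pl := EuclideanSpace ℝ (Fin 2)

/-- Bounded measurable functions with bounded support. -/
structure IsNice (f : Pl → ℝ) : Prop where
  meas : Measurable f
  bdd : ∃ M, ∀ x, |f x| ≤ M
  supp : ∃ K, ∀ x, K < ‖x‖ → f x = 0

/-- Average of `f` over the segment from `x` to `x + c d`. -/
noncomputable def av (d : Pl) (c : ℝ) (f : Pl → ℝ) (x : Pl) : ℝ :=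
  c⁻¹ * ∫ a in (0:ℝ)..c, f (x + a • d)

lemma meas_comp {f : Pl → ℝ} (hf : Measurable f) (d : Pl) :
    Measurable (fun p : Pl × ℝ => f (p.1 + p.2 • d)) :=
  hf.comp (by fun_prop)

lemma line_int {f : Pl → ℝ} (hf : IsNice f) (d x : Pl) (a b : ℝ) :
    IntervalIntegrable (fun t => f (x + t • d)) volume a b := by
  obtain ⟨M, hM⟩ := hf.bdd
  have hm : Measurable (fun t : ℝ => f (x + t • d)) := hf.meas.comp (by fun_prop)
  refine (intervalIntegrable_const (c := M)).mono_fun hm.aestronglyMeasurable ?_
  refine Filter.Eventually.of_forall (fun t => ?_)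
  simp only [Real.norm_eq_abs]
  exact (hM _).trans (le_abs_self M)

lemma av_abs_le {f : Pl → ℝ} {M : ℝ} (hM : ∀ x, |f x| ≤ M) (d : Pl) {c : ℝ}
    (hc : 0 < c) (x : Pl) : |av d c f x| ≤ M := by
  unfold av
  have h := intervalIntegral.norm_integral_le_of_norm_le_const (a := 0) (b := c)
    (f := fun a => f (x + a • d)) (C := M) (fun t _ => by simpa using hM (x + t • d))
  rw [abs_mul, abs_of_pos (inv_pos.mpr hc)]
  rw [Real.norm_eq_abs, sub_zero, abs_of_pos hc] at h
  rw [inv_mul_le_iff₀ hc]
  linarith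

lemma av_meas {f : Pl → ℝ} (hf : Measurable f) (d : Pl) {c : ℝ} (hc : 0 < c) :
    Measurable (av d c f) := by
  unfold av
  refine Measurable.const_mul ?_ _
  simp_rw [intervalIntegral.integral_of_le hc.le]
  exact ((meas_comp hf d).stronglyMeasurable.integral_prod_right).measurable

lemma av_supp {f : Pl → ℝ} {K : ℝ} (hK : ∀ x, K < ‖x‖ → f x = 0) (d : Pl) {c : ℝ}
    (hc : 0 < c) (x : Pl) (hx : K + c * ‖d‖ < ‖x‖) : av d c f x = 0 := by
  unfold av
  have h0 : ∫ a in (0:ℝ)..c, f (x + a • d) = ∫ a in (0:ℝ)..c, (0:ℝ) := by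
    refine intervalIntegral.integral_congr (fun t ht => ?_)
    rw [uIcc_of_le hc.le] at ht
    apply hK
    have h1 : ‖x‖ ≤ ‖x + t • d‖ + ‖t • d‖ := by
      have := norm_sub_le (x + t • d) (t • d)
      simpa using this
    have h2 : ‖t • d‖ ≤ c * ‖d‖ := by
      rw [norm_smul, Real.norm_eq_abs, abs_of_nonneg ht.1]
      exact mul_le_mul_of_nonneg_right ht.2 (norm_nonneg _)
    linarith
  rw [h0]; simp

lemma av_nice {f : Pl → ℝ} (hf : IsNice f) (d : Pl) {c : ℝ} (hc : 0 < c) :
    IsNice (av d c f) := by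
  obtain ⟨M, hM⟩ := hf.bdd
  obtain ⟨K, hK⟩ := hf.supp
  exact ⟨av_meas hf.meas d hc, ⟨M, av_abs_le hM d hc⟩, ⟨K + c * ‖d‖, av_supp hK d hc⟩⟩

lemma av_comm {f : Pl → ℝ} (hf : IsNice f) (d d' : Pl) {c c' : ℝ} (hc : 0 < c) (hc' : 0 < c') :
    av d c (av d' c' f) = av d' c' (av d c f) := by
  obtain ⟨M, hM⟩ := hf.bdd
  funext x
  unfold av
  simp_rw [intervalIntegral.integral_const_mul]
  rw [intervalIntegral_intervalIntegral_swap]
  · simp_rw [add_right_comm x]
    ring
  · have hm : Measurable (Function.uncurry fun a b : ℝ => f (x + a • d + b • d')) :=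
      hf.meas.comp (by fun_prop)
    refine Measure.integrableOn_of_bounded (M := M) ?_ hm.aestronglyMeasurable ?_
    · rw [uIoc_of_le hc.le, uIoc_of_le hc'.le, Measure.volume_eq_prod, Measure.prod_prod]
      simp [ENNReal.mul_eq_top]
    · exact Filter.Eventually.of_forall (fun p => by
        simpa [Function.uncurry] using hM (x + p.1 • d + p.2 • d'))

lemma nice_integrable {f : Pl → ℝ} (hf : IsNice f) : Integrable f := by
  obtain ⟨M, hM⟩ := hf.bdd
  obtain ⟨K, hK⟩ := hf.supp
  have h : IntegrableOn f (Metric.closedBall 0 K) :=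
    Measure.integrableOn_of_bounded (M := M) (measure_closedBall_lt_top).ne
      hf.meas.aestronglyMeasurable (Filter.Eventually.of_forall (fun p => by simpa using hM _))
  rw [← integrableOn_iff_integrable_of_support_subset (s := Metric.closedBall 0 K)]
  · exact h
  · intro x hx
    rw [Metric.mem_closedBall, dist_zero_right]
    by_contra hlt
    exact hx (hK x (lt_of_not_ge hlt))

lemma integral_av {f : Pl → ℝ} (hf : IsNice f) (d : Pl) {c : ℝ} (hc : 0 < c) :
    ∫ x, av d c f x = ∫ x, f x := by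
  unfold av
  rw [integral_const_mul]
  have hint : Integrable f := nice_integrable hf
  rw [← intervalIntegral_integral_swap (f := fun a x => f (x + a • d))]
  · simp_rw [integral_add_right_eq_self f]
    rw [intervalIntegral.integral_const, smul_eq_mul, sub_zero, ← mul_assoc,
      inv_mul_cancel₀ hc.ne', one_mul]
  · rw [uIoc_of_le hc.le]
    obtain ⟨M, hM⟩ := hf.bdd
    obtain ⟨K, hK⟩ := hf.supp
    have hm : Measurable (Function.uncurry fun (a : ℝ) (x : Pl) => f (x + a • d)) :=
      hf.meas.comp (by fun_prop)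
    have hon : IntegrableOn (Function.uncurry fun (a : ℝ) (x : Pl) => f (x + a • d))
        (Ioc 0 c ×ˢ Metric.closedBall 0 (K + c * ‖d‖)) (volume.prod volume) := by
      refine Measure.integrableOn_of_bounded (M := M) ?_ hm.aestronglyMeasurable ?_
      · rw [Measure.prod_prod]
        exact ENNReal.mul_ne_top (by simp) (measure_closedBall_lt_top).ne
      · exact Filter.Eventually.of_forall (fun p => by
          simpa [Function.uncurry] using hM (p.2 + p.1 • d))
    have h2 : (volume.restrict (Ioc 0 c)).prod (volume : Measure Pl)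
        = (volume.prod volume).restrict (Ioc 0 c ×ˢ univ) := by
      rw [← Measure.prod_restrict, Measure.restrict_univ]
    rw [h2]
    change IntegrableOn _ _ _
    refine hon.of_forall_sdiff_eq_zero (measurableSet_Ioc.prod MeasurableSet.univ) ?_
    rintro ⟨a, x⟩ ⟨⟨ha, _⟩, h3⟩
    simp only [mem_prod, not_and, Metric.mem_closedBall, dist_zero_right, not_le] at h3 ha
    have h4 := h3 ha
    simp only [Function.uncurry_apply_pair]
    apply hK
    have h5 : ‖x‖ ≤ ‖x + a • d‖ + ‖a • d‖ := by
      have := norm_sub_le (x + a • d) (a • d)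
      simpa using this
    have h6 : ‖a • d‖ ≤ c * ‖d‖ := by
      rw [norm_smul, Real.norm_eq_abs, abs_of_nonneg ha.1.le]
      exact mul_le_mul_of_nonneg_right ha.2 (norm_nonneg _)
    linarith

end Pool.Agent.H2.Crit
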