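import Mathlib

/-!
# Rounding of multi-affine functions, and a deterministic form of the Chernoff bound
-/

namespace Pool.Agent.H2.Crit

variable {ι : Type*} [DecidableEq ι]

/-- Affine in every coordinate. -/
def MAff (F : (ι → ℝ) → ℝ) : Prop :=
  ∀ (i : ι) (x : ι → ℝ), ∃ α β : ℝ, ∀ y, F (Function.update x i y) = α + β * y

lemma MAff.round {F : (ι → ℝ) → ℝ} (hF : MAff F) (p : ι → ℝ)
    (hp : ∀ i, 0 ≤ p i ∧ p i ≤ 1) (s : Finset ι) :
    ∃ x : ι → ℝ, (∀ i ∈ s, x i = 0 ∨ x i = 1) ∧ (∀ i ∉ s, x i = p i) ∧ F p ≤ F x := by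
  induction s using Finset.induction_on with
  | empty => exact ⟨p, by simp, fun _ _ => rfl, le_rfl⟩
  | insert i s hi ih =>
    obtain ⟨x, h1, h2, h3⟩ := ih
    obtain ⟨α, β, hαβ⟩ := hF i x
    have hx : F x = α + β * p i := by
      rw [← hαβ, ← h2 i hi, Function.update_eq_self]
    have key : ∀ c : ℝ, (c = 0 ∨ c = 1) → F x ≤ F (Function.update x i c) →
        ∃ x' : ι → ℝ, (∀ j ∈ insert i s, x' j = 0 ∨ x' j = 1) ∧
          (∀ j ∉ insert i s, x' j = p j) ∧ F p ≤ F x' := by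
      intro c hc hle
      refine ⟨Function.update x i c, fun j hj => ?_, fun j hj => ?_, h3.trans hle⟩
      · by_cases hji : j = i
        · subst hji; simpa using hc
        · rw [Function.update_of_ne hji]
          exact h1 j (by simpa [hji] using hj)
      · have hji : j ≠ i := fun h => hj (by simp [h])
        rw [Function.update_of_ne hji]
        exact h2 j (fun h => hj (Finset.mem_insert_of_mem h))
    rcases le_total 0 β with hβ | hβ
    · refine key 1 (Or.inr rfl) ?_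
      rw [hαβ, hx]
      nlinarith [(hp i).2]
    · refine key 0 (Or.inl rfl) ?_
      rw [hαβ, hx]
      nlinarith [(hp i).1]

lemma MAff.const (c : ℝ) : MAff (fun _ : ι → ℝ => c) := fun _ _ => ⟨c, 0, fun _ => by simp⟩

lemma MAff.sum {κ : Type*} (s : Finset κ) (F : κ → (ι → ℝ) → ℝ) (h : ∀ k ∈ s, MAff (F k)) :
    MAff (fun x => ∑ k ∈ s, F k x) := by
  intro i x
  classical
  choose! α β hαβ using fun k hk => h k hk i x
  refine ⟨∑ k ∈ s, α k, ∑ k ∈ s, β k, fun y => ?_⟩
  rw [Finset.sum_mul, ← Finset.sum_add_distrib]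
  exact Finset.sum_congr rfl (fun k hk => hαβ k hk y)

lemma MAff.smul {F : (ι → ℝ) → ℝ} (h : MAff F) (c : ℝ) : MAff (fun x => c * F x) := by
  intro i x
  obtain ⟨α, β, hαβ⟩ := h i x
  exact ⟨c * α, c * β, fun y => by simp only [hαβ]; ring⟩

lemma MAff.sub {F G : (ι → ℝ) → ℝ} (h : MAff F) (h' : MAff G) : MAff (fun x => F x - G x) := by
  intro i x
  obtain ⟨α, β, hαβ⟩ := h i x
  obtain ⟨α', β', hαβ'⟩ := h' i x
  exact ⟨α - α', β - β', fun y => by simp only [hαβ, hαβ']; ring⟩

lemma MAff.coord (k : ι) : MAff (fun x : ι → ℝ => x k) := by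
  intro i x
  by_cases hik : k = i
  · subst hik; exact ⟨0, 1, fun y => by simp⟩
  · exact ⟨x k, 0, fun y => by simp [Function.update_of_ne hik]⟩

lemma MAff.prod (s : Finset ι) (c : ℝ) : MAff (fun x : ι → ℝ => ∏ k ∈ s, (1 + c * x k)) := by
  intro i x
  by_cases hi : i ∈ s
  · refine ⟨∏ k ∈ s.erase i, (1 + c * x k), c * ∏ k ∈ s.erase i, (1 + c * x k), fun y => ?_⟩
    simp only
    rw [← Finset.mul_prod_erase s _ hi, Function.update_self]
    have : ∏ k ∈ s.erase i, (1 + c * Function.update x i y k)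
        = ∏ k ∈ s.erase i, (1 + c * x k) :=
      Finset.prod_congr rfl (fun k hk => by rw [Function.update_of_ne (Finset.ne_of_mem_erase hk)])
    rw [this]
    ring
  · refine ⟨∏ k ∈ s, (1 + c * x k), 0, fun y => ?_⟩
    rw [zero_mul, add_zero]
    refine Finset.prod_congr rfl (fun k hk => ?_)
    have hne : k ≠ i := fun h => hi (by rw [← h]; exact hk)
    rw [Function.update_of_ne hne]

/-- Deterministic Chernoff bound: one can round a vector of probabilities so that the total is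
almost preserved from below and all the given partial sums are almost preserved from above. -/
theorem chernoff {J : Type*} (I : Finset ι) (P : Finset J) (Ts : J → Finset ι)
    (hTs : ∀ π ∈ P, Ts π ⊆ I) (p : ι → ℝ) (hp : ∀ i, 0 ≤ p i ∧ p i ≤ 1)
    (V t l : ℝ) (ht0 : 0 < t) (ht1 : t ≤ 1)
    (hV : ∀ π ∈ P, (((Ts π).filter (fun k => 0 < p k ∧ p k < 1)).card : ℝ) ≤ V)
    (hsmall : (I.card : ℝ) * P.card * Real.exp (t ^ 2 * V - t * l) ≤ 1)
    (hsum : 1 < ∑ k ∈ I, p k) :
    ∃ K ⊆ I, (∑ k ∈ I, p k) - 1 ≤ K.card ∧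
      ∀ π ∈ P, ((K ∩ Ts π).card : ℝ) ≤ (∑ k ∈ Ts π, p k) + l := by
  set c := Real.exp t - 1 with hc
  have hc0 : 0 < c := by rw [hc]; linarith [Real.add_one_lt_exp ht0.ne']
  have hc1 : c ≤ t + t ^ 2 := by
    have := Real.exp_bound' ht0.le ht1 (n := 2) (by norm_num)
    simp [Finset.sum_range_succ] at this
    rw [hc]
    nlinarith
  set μ : J → ℝ := fun π => ∑ k ∈ Ts π, p k with hμ
  set F : (ι → ℝ) → ℝ := fun x => (∑ k ∈ I, x k) -
    I.card * ∑ π ∈ P, Real.exp (-(t * (μ π + l))) * ∏ k ∈ Ts π, (1 + c * x k) with hF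
  have hFm : MAff F := by
    refine MAff.sub (MAff.sum I _ (fun k _ => MAff.coord k)) (MAff.smul ?_ _)
    exact MAff.sum P _ (fun π _ => MAff.smul (MAff.prod _ _) _)
  obtain ⟨x, hx1, hx2, hx3⟩ := hFm.round p hp I
  set K := I.filter (fun k => x k = 1) with hK
  have hfac : ∀ k, 1 + c * p k ≤ Real.exp (t * p k + t ^ 2 * (if 0 < p k ∧ p k < 1 then 1 else 0)) := by
    intro k
    by_cases h : 0 < p k ∧ p k < 1
    · rw [if_pos h]
      refine (Real.add_one_le_exp (c * p k) |>.trans' (by linarith)).trans (Real.exp_le_exp.mpr ?_)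
      have : c * p k ≤ (t + t ^ 2) * p k := mul_le_mul_of_nonneg_right hc1 h.1.le
      nlinarith [h.1, h.2, sq_nonneg t]
    · rw [if_neg h, mul_zero, add_zero]
      have h' : p k = 0 ∨ p k = 1 := by
        by_contra hcon
        push Not at hcon
        exact h ⟨lt_of_le_of_ne (hp k).1 (Ne.symm hcon.1), lt_of_le_of_ne (hp k).2 hcon.2⟩
      rcases h' with h' | h'
      · rw [h']; simp
      · rw [h', hc]; simp
  have hprod : ∀ π ∈ P, ∏ k ∈ Ts π, (1 + c * p k) ≤ Real.exp (t * μ π + t ^ 2 * V) := by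
    intro π hπ
    have h1 : ∏ k ∈ Ts π, (1 + c * p k) ≤ ∏ k ∈ Ts π,
        Real.exp (t * p k + t ^ 2 * (if 0 < p k ∧ p k < 1 then 1 else 0)) :=
      Finset.prod_le_prod (fun k _ => by nlinarith [(hp k).1]) (fun k _ => hfac k)
    refine h1.trans ?_
    rw [← Real.exp_sum]
    refine Real.exp_le_exp.mpr ?_
    rw [Finset.sum_add_distrib, ← Finset.mul_sum, ← Finset.mul_sum]
    have h2 : ∑ k ∈ Ts π, (if 0 < p k ∧ p k < 1 then (1:ℝ) else 0)
        = ((Ts π).filter (fun k => 0 < p k ∧ p k < 1)).card := by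
      rw [Finset.card_filter]; push_cast; rfl
    rw [h2]
    have := mul_le_mul_of_nonneg_left (hV π hπ) (sq_nonneg t)
    linarith
  have hFp : (∑ k ∈ I, p k) - 1 ≤ F p := by
    simp only [hF]
    have h1 : ∑ π ∈ P, Real.exp (-(t * (μ π + l))) * ∏ k ∈ Ts π, (1 + c * p k)
        ≤ P.card * Real.exp (t ^ 2 * V - t * l) := by
      rw [← nsmul_eq_mul]
      refine Finset.sum_le_card_nsmul _ _ _ (fun π hπ => ?_)
      refine (mul_le_mul_of_nonneg_left (hprod π hπ) (Real.exp_pos _).le).trans ?_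
      rw [← Real.exp_add]
      exact Real.exp_le_exp.mpr (by linarith)
    have h2 := mul_le_mul_of_nonneg_left h1 (Nat.cast_nonneg (α := ℝ) I.card)
    rw [← mul_assoc] at h2
    linarith
  have hxK : ∀ k ∈ I, x k = if k ∈ K then 1 else 0 := by
    intro k hk
    rcases hx1 k hk with h | h
    · rw [if_neg, h]
      rw [hK, Finset.mem_filter, h]
      simp
    · rw [if_pos, h]
      rw [hK, Finset.mem_filter]
      exact ⟨hk, h⟩
  have hsumx : ∑ k ∈ I, x k = K.card := by
    rw [Finset.sum_congr rfl hxK, ← Finset.sum_filter]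
    have : I.filter (fun k => k ∈ K) = K := by
      ext k; simp [hK]
    rw [this]; simp
  have hprodx : ∀ π ∈ P, ∏ k ∈ Ts π, (1 + c * x k) = Real.exp (t * (K ∩ Ts π).card) := by
    intro π hπ
    have h1 : ∀ k ∈ Ts π, 1 + c * x k = if k ∈ K then Real.exp t else 1 := by
      intro k hk
      rw [hxK k (hTs π hπ hk)]
      split_ifs
      · rw [hc]; ring
      · ring
    rw [Finset.prod_congr rfl h1, Finset.prod_ite, Finset.prod_const, Finset.prod_const_one,
      mul_one, ← Real.exp_nat_mul, mul_comm]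
    congr 4
    ext k; simp [and_comm]
  have hterm : ∀ π ∈ P, 0 ≤ Real.exp (-(t * (μ π + l))) * ∏ k ∈ Ts π, (1 + c * x k) := by
    intro π hπ
    rw [hprodx π hπ]; positivity
  have hFx : F x ≤ K.card := by
    simp only [hF]
    rw [hsumx]
    have := Finset.sum_nonneg hterm
    have h2 : 0 ≤ (I.card : ℝ) * ∑ π ∈ P, Real.exp (-(t * (μ π + l))) *
      ∏ k ∈ Ts π, (1 + c * x k) := mul_nonneg (Nat.cast_nonneg _) this
    linarith
  refine ⟨K, Finset.filter_subset _ _, by linarith, fun π hπ => ?_⟩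
  have h1 : (I.card : ℝ) * (Real.exp (-(t * (μ π + l))) * ∏ k ∈ Ts π, (1 + c * x k))
      ≤ I.card * ∑ π ∈ P, Real.exp (-(t * (μ π + l))) * ∏ k ∈ Ts π, (1 + c * x k) :=
    mul_le_mul_of_nonneg_left (Finset.single_le_sum hterm hπ) (Nat.cast_nonneg _)
  have h2 : F x = K.card - I.card * ∑ π ∈ P, Real.exp (-(t * (μ π + l))) *
      ∏ k ∈ Ts π, (1 + c * x k) := by
    simp only [hF]
    rw [hsumx]
  have hKI : (K.card : ℝ) ≤ I.card := by
    exact_mod_cast Finset.card_le_card (Finset.filter_subset _ _)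
  have h3 : (I.card : ℝ) * Real.exp (t * ((K ∩ Ts π).card - (μ π + l))) < I.card := by
    rw [hprodx π hπ, ← Real.exp_add] at h1
    have h4 : -(t * (μ π + l)) + t * ((K ∩ Ts π).card : ℝ)
        = t * ((K ∩ Ts π).card - (μ π + l)) := by ring
    rw [h4] at h1
    linarith
  have hIpos : (0:ℝ) < I.card := by
    by_contra hcon
    have : (I.card : ℝ) = 0 := le_antisymm (not_lt.mp hcon) (Nat.cast_nonneg _)
    rw [this] at h3
    simp at h3
  have h5 : Real.exp (t * ((K ∩ Ts π).card - (μ π + l))) < 1 := by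
    by_contra hcon
    push Not at hcon
    nlinarith
  rw [Real.exp_lt_one_iff] at h5
  by_contra hcon
  push Not at hcon
  nlinarith [mul_pos ht0 (sub_pos.mpr hcon)]

end Pool.Agent.H2.Crit
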