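import Mathlib
import Pool.Agent.H2.Crit.Avg

/-!
# The smoothing operator and its interaction with unit cell averages
-/

open MeasureTheory Set

namespace Pool.Agent.H2.Crit

/-- Standard basis vector. -/
noncomputable def e (i : Fin 2) : Pl := EuclideanSpace.single i (1:ℝ)

lemma norm_e (i : Fin 2) : ‖e i‖ = 1 := by simp [e]

/-- Lipschitz estimate along the direction of averaging. -/
lemma av_shift {f : Pl → ℝ} (hf : IsNice f) {M : ℝ} (hM : ∀ x, |f x| ≤ M) (d : Pl) {c : ℝ}
    (hc : 0 < c) (x : Pl) (b : ℝ) : |av d c f (x + b • d) - av d c f x| ≤ 2 * |b| * M / c := by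
  unfold av
  have h1 : ∫ a in (0:ℝ)..c, f (x + b • d + a • d) = ∫ a in b..(b + c), f (x + a • d) := by
    have := intervalIntegral.integral_comp_add_left (a := 0) (b := c) (fun t => f (x + t • d)) b
    simp only [add_zero] at this
    rw [← this]
    refine intervalIntegral.integral_congr (fun t _ => ?_)
    show f (x + b • d + t • d) = f (x + (b + t) • d)
    rw [add_smul, add_assoc]
  rw [h1, ← mul_sub]
  have hii := line_int hf d x
  have h2 : (∫ a in b..(b + c), f (x + a • d)) - ∫ a in (0:ℝ)..c, f (x + a • d)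
      = (∫ a in c..(b + c), f (x + a • d)) - ∫ a in (0:ℝ)..b, f (x + a • d) := by
    have e1 := intervalIntegral.integral_add_adjacent_intervals (hii 0 b) (hii b (b + c))
    have e2 := intervalIntegral.integral_add_adjacent_intervals (hii 0 c) (hii c (b + c))
    linarith
  rw [h2]
  have n1 := intervalIntegral.norm_integral_le_of_norm_le_const (a := c) (b := b + c)
    (f := fun a => f (x + a • d)) (C := M) (fun t _ => by simpa using hM (x + t • d))
  have n2 := intervalIntegral.norm_integral_le_of_norm_le_const (a := 0) (b := b)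
    (f := fun a => f (x + a • d)) (C := M) (fun t _ => by simpa using hM (x + t • d))
  rw [Real.norm_eq_abs] at n1 n2
  rw [show b + c - c = b by ring] at n1
  rw [sub_zero] at n2
  rw [abs_mul, abs_of_pos (inv_pos.mpr hc), inv_mul_le_iff₀ hc]
  have n3 : |(∫ a in c..(b + c), f (x + a • d)) - ∫ a in (0:ℝ)..b, f (x + a • d)|
      ≤ M * |b| + M * |b| := (abs_sub _ _).trans (add_le_add n1 n2)
  refine n3.trans (le_of_eq ?_)
  field_simp
  ring

lemma av_diff {f : Pl → ℝ} (hf : IsNice f) (b : Pl) {ε : ℝ}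
    (hε : ∀ x, |f (x + b) - f x| ≤ ε) (d : Pl) {c : ℝ} (hc : 0 < c) (x : Pl) :
    |av d c f (x + b) - av d c f x| ≤ ε := by
  unfold av
  rw [← mul_sub, ← intervalIntegral.integral_sub (line_int hf d _ _ _) (line_int hf d _ _ _)]
  have h := intervalIntegral.norm_integral_le_of_norm_le_const (a := 0) (b := c)
    (f := fun a => f (x + b + a • d) - f (x + a • d)) (C := ε)
    (fun t _ => by
      have := hε (x + t • d)
      rw [Real.norm_eq_abs, add_right_comm]
      exact this)
  rw [Real.norm_eq_abs, sub_zero, abs_of_pos hc] at h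
  rw [abs_mul, abs_of_pos (inv_pos.mpr hc), inv_mul_le_iff₀ hc]
  linarith

/-- Averaging over the squares with side 16. -/
noncomputable def A (f : Pl → ℝ) : Pl → ℝ := av (e 0) 16 (av (e 1) 16 f)

/-- Averaging over the cell spanned by `u` and `v`. -/
noncomputable def T (u v : Pl) (f : Pl → ℝ) : Pl → ℝ := av u 1 (av v 1 f)

/-- `S = 1 - T`. -/
noncomputable def S (u v : Pl) (f : Pl → ℝ) : Pl → ℝ := fun x => f x - T u v f x

lemma A_nice {f : Pl → ℝ} (hf : IsNice f) : IsNice (A f) :=
  av_nice (av_nice hf _ (by norm_num)) _ (by norm_num)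

lemma T_nice (u v : Pl) {f : Pl → ℝ} (hf : IsNice f) : IsNice (T u v f) :=
  av_nice (av_nice hf _ (by norm_num)) _ (by norm_num)

lemma sub_nice {f g : Pl → ℝ} (hf : IsNice f) (hg : IsNice g) :
    IsNice (fun x => f x - g x) := by
  obtain ⟨M, hM⟩ := hf.bdd
  obtain ⟨K, hK⟩ := hf.supp
  obtain ⟨M', hM'⟩ := hg.bdd
  obtain ⟨K', hK'⟩ := hg.supp
  refine ⟨hf.meas.sub hg.meas, ⟨M + M', fun x => ?_⟩, ⟨max K K', fun x hx => ?_⟩⟩
  · exact (abs_sub _ _).trans (add_le_add (hM x) (hM' x))
  · rw [hK x ((le_max_left _ _).trans_lt hx), hK' x ((le_max_right _ _).trans_lt hx), sub_zero]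

lemma S_nice (u v : Pl) {f : Pl → ℝ} (hf : IsNice f) : IsNice (S u v f) :=
  sub_nice hf (T_nice u v hf)

lemma av_sub {f g : Pl → ℝ} (hf : IsNice f) (hg : IsNice g) (d : Pl) (c : ℝ) :
    av d c (fun x => f x - g x) = fun x => av d c f x - av d c g x := by
  funext x
  unfold av
  rw [intervalIntegral.integral_sub (line_int hf d _ _ _) (line_int hg d _ _ _), mul_sub]

lemma A_sub {f g : Pl → ℝ} (hf : IsNice f) (hg : IsNice g) :
    A (fun x => f x - g x) = fun x => A f x - A g x := by
  unfold A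
  rw [av_sub hf hg, av_sub (av_nice hf _ (by norm_num)) (av_nice hg _ (by norm_num))]

lemma A_T_comm (u v : Pl) {f : Pl → ℝ} (hf : IsNice f) : A (T u v f) = T u v (A f) := by
  have h16 : (0:ℝ) < 16 := by norm_num
  have h1 : (0:ℝ) < 1 := by norm_num
  unfold A T
  rw [av_comm (av_nice hf v h1) (e 1) u h16 h1, av_comm hf (e 1) v h16 h1,
    av_comm (av_nice (av_nice hf _ h16) v h1) (e 0) u h16 h1,
    av_comm (av_nice hf _ h16) (e 0) v h16 h1]

lemma A_S_comm (u v : Pl) {f : Pl → ℝ} (hf : IsNice f) : A (S u v f) = S u v (A f) := by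
  unfold S
  rw [A_sub hf (T_nice u v hf), A_T_comm u v hf]

lemma A_abs_le {f : Pl → ℝ} {M : ℝ} (hM : ∀ x, |f x| ≤ M) (x : Pl) : |A f x| ≤ M :=
  av_abs_le (av_abs_le hM _ (by norm_num)) _ (by norm_num) x

lemma A_lip {f : Pl → ℝ} (hf : IsNice f) {M : ℝ} (hM : ∀ x, |f x| ≤ M) (x y : Pl) :
    |A f x - A f y| ≤ M / 8 * (|x 0 - y 0| + |x 1 - y 1|) := by
  have h16 : (0:ℝ) < 16 := by norm_num
  have hx : x = (y + (x 1 - y 1) • e 1) + (x 0 - y 0) • e 0 := by
    ext i; fin_cases i <;> simp [e]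
  have h1 : |A f x - A f (y + (x 1 - y 1) • e 1)| ≤ M / 8 * |x 0 - y 0| := by
    have := av_shift (av_nice hf (e 1) h16) (av_abs_le hM _ h16) (e 0) h16
      (y + (x 1 - y 1) • e 1) (x 0 - y 0)
    rw [← hx] at this
    refine this.trans (le_of_eq ?_)
    ring
  have h2 : |A f (y + (x 1 - y 1) • e 1) - A f y| ≤ M / 8 * |x 1 - y 1| := by
    refine av_diff (av_nice hf (e 1) h16) _ (fun z => ?_) _ h16 y
    refine (av_shift hf hM (e 1) h16 z (x 1 - y 1)).trans (le_of_eq ?_)
    ring
  have h3 : A f x - A f y = (A f x - A f (y + (x 1 - y 1) • e 1))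
      + (A f (y + (x 1 - y 1) • e 1) - A f y) := by ring
  rw [h3, mul_add]
  exact (abs_add_le _ _).trans (add_le_add h1 h2)

lemma coord_le_norm (x : Pl) (i : Fin 2) : |x i| ≤ ‖x‖ := by
  simpa using PiLp.norm_apply_le x i

lemma A_lip' {f : Pl → ℝ} (hf : IsNice f) {M : ℝ} (hM : ∀ x, |f x| ≤ M) (x y : Pl) :
    |A f x - A f y| ≤ M / 4 * ‖x - y‖ := by
  have hM0 : 0 ≤ M := (abs_nonneg _).trans (hM 0)
  have h0 := coord_le_norm (x - y) 0
  have h1 := coord_le_norm (x - y) 1
  simp only [PiLp.sub_apply] at h0 h1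
  refine (A_lip hf hM x y).trans ?_
  nlinarith [mul_le_mul_of_nonneg_left (add_le_add h0 h1) (by positivity : 0 ≤ M / 8)]

lemma S_A_le {u v : Pl} (hu : ‖u‖ = 1) (hv : ‖v‖ = 1) {f : Pl → ℝ} (hf : IsNice f) {M : ℝ}
    (hM : ∀ x, |f x| ≤ M) (x : Pl) : |S u v (A f) x| ≤ M / 2 := by
  have hM0 : 0 ≤ M := (abs_nonneg _).trans (hM 0)
  have hA := A_nice hf
  have key : S u v (A f) x = ∫ a in (0:ℝ)..1, ∫ b in (0:ℝ)..1,
      (A f x - A f (x + a • u + b • v)) := by
    unfold S T av
    have : ∀ a : ℝ, ∫ b in (0:ℝ)..1, (A f x - A f (x + a • u + b • v))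
        = A f x - ∫ b in (0:ℝ)..1, A f (x + a • u + b • v) := by
      intro a
      rw [intervalIntegral.integral_sub (by simp) (line_int hA v _ _ _)]
      simp
    simp_rw [this]
    have hav := line_int (av_nice hA v one_pos) u x 0 1
    unfold av at hav
    simp only [inv_one, one_mul] at hav ⊢
    rw [intervalIntegral.integral_sub (by simp) hav]
    simp
  rw [key]
  have h1 : ∀ a ∈ Set.uIoc (0:ℝ) 1, ‖∫ b in (0:ℝ)..1, (A f x - A f (x + a • u + b • v))‖
      ≤ M / 2 := by
    intro a ha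
    rw [Set.uIoc_of_le zero_le_one] at ha
    have := intervalIntegral.norm_integral_le_of_norm_le_const (a := (0:ℝ)) (b := 1)
      (f := fun b => (A f x - A f (x + a • u + b • v))) (C := M / 2) (fun b hb => by
        rw [Set.uIoc_of_le zero_le_one] at hb
        refine (A_lip' hf hM _ _).trans ?_
        have : ‖x - (x + a • u + b • v)‖ ≤ 2 := by
          rw [show x - (x + a • u + b • v) = -(a • u + b • v) by abel, norm_neg]
          refine (norm_add_le _ _).trans ?_
          rw [norm_smul, norm_smul, hu, hv, Real.norm_eq_abs, Real.norm_eq_abs,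
            abs_of_pos ha.1, abs_of_pos hb.1]
          linarith [ha.2, hb.2]
        nlinarith)
    simpa using this
  have h2 := intervalIntegral.norm_integral_le_of_norm_le_const h1
  simpa using h2

/-- Nice functions as a type. -/
def NF := {f : Pl → ℝ // IsNice f}

noncomputable def AN (f : NF) : NF := ⟨A f.1, A_nice f.2⟩

noncomputable def SN (u v : Pl) (f : NF) : NF := ⟨S u v f.1, S_nice u v f.2⟩

lemma SN_AN_comm (u v : Pl) : Function.Commute (SN u v) AN := by
  intro f
  exact Subtype.ext (A_S_comm u v f.2).symm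

/-- The iterate of `S` on the iterate of `A` is small. -/
lemma iterate_small {u v : Pl} (hu : ‖u‖ = 1) (hv : ‖v‖ = 1) (f : NF) {M : ℝ}
    (hM : ∀ x, |f.1 x| ≤ M) (m : ℕ) (x : Pl) :
    |((SN u v)^[m] (AN^[m] f)).1 x| ≤ M / 2 ^ m := by
  have h := congrFun ((SN_AN_comm u v).comp_iterate m) f
  simp only [Function.comp_apply] at h
  rw [← h]
  clear h
  induction m generalizing x with
  | zero => simpa using hM x
  | succ k ih =>
    rw [Function.iterate_succ_apply', Function.comp_apply]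
    have := S_A_le hu hv ((SN u v ∘ AN)^[k] f).2 ih x
    refine this.trans (le_of_eq ?_)
    rw [pow_succ]; field_simp

end Pool.Agent.H2.Crit
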