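import Mathlib
import Pool.Agent.H2.Crit.Smooth

/-!
# Sums over rotated lattices
-/

open MeasureTheory Set

namespace Pool.Agent.H2.Crit

/-- The point of the lattice `t + ℤ B e0 + ℤ B e1` with index `z`. -/
noncomputable def pt (B : Pl ≃ₗᵢ[ℝ] Pl) (t : Pl) (z : ℤ × ℤ) : Pl :=
  t + (z.1 : ℝ) • B (e 0) + (z.2 : ℝ) • B (e 1)

lemma norm_B (B : Pl ≃ₗᵢ[ℝ] Pl) (i : Fin 2) : ‖B (e i)‖ = 1 := by
  rw [B.norm_map, norm_e]

lemma norm_comb (B : Pl ≃ₗᵢ[ℝ] Pl) (a b : ℝ) : |a| ≤ ‖a • B (e 0) + b • B (e 1)‖ ∧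
    |b| ≤ ‖a • B (e 0) + b • B (e 1)‖ := by
  have h : a • B (e 0) + b • B (e 1) = B (a • e 0 + b • e 1) := by simp
  rw [h, B.norm_map]
  have h0 := coord_le_norm (a • e 0 + b • e 1) 0
  have h1 := coord_le_norm (a • e 0 + b • e 1) 1
  simp [e] at h0 h1
  exact ⟨by simpa [e] using h0, by simpa [e] using h1⟩

lemma sum_unit_intervals (g : ℝ → ℝ) (hg : ∀ a b, IntervalIntegrable g volume a b) (N : ℕ) :
    ∑ z ∈ Finset.Ico (-(N:ℤ)) N, ∫ a in (0:ℝ)..1, g (z + a) = ∫ a in (-(N:ℝ))..N, g a := by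
  have h1 : ∀ z : ℤ, ∫ a in (0:ℝ)..1, g (z + a) = ∫ a in (z:ℝ)..(z + 1), g a := by
    intro z
    rw [intervalIntegral.integral_comp_add_left (fun t => g t) (z:ℝ), add_zero]
  simp_rw [h1]
  induction N with
  | zero => simp
  | succ N ih =>
    have h2 : Finset.Ico (-((N + 1 : ℕ):ℤ)) ((N + 1 : ℕ):ℤ)
        = insert (-((N:ℤ) + 1)) (insert (N:ℤ) (Finset.Ico (-(N:ℤ)) N)) := by
      ext z
      simp only [Finset.mem_Ico, Finset.mem_insert]
      push_cast
      omega
    rw [h2, Finset.sum_insert, Finset.sum_insert, ih]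
    · have e1 := intervalIntegral.integral_add_adjacent_intervals
        (hg (-((N:ℝ) + 1)) (-(N:ℝ))) (hg (-(N:ℝ)) N)
      have e2 := intervalIntegral.integral_add_adjacent_intervals
        (hg (-((N:ℝ) + 1)) N) (hg N (N + 1))
      push_cast
      rw [show -((N:ℝ) + 1) + 1 = -(N:ℝ) by ring]
      linarith
    · simp
    · simp only [Finset.mem_insert, Finset.mem_Ico]
      omega

/-- The parametrisation of the plane by the coordinates with respect to the rotated frame. -/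
noncomputable def frame (B : Pl ≃ₗᵢ[ℝ] Pl) (t : Pl) : ℝ × ℝ ≃ᵐ Pl :=
  (((MeasurableEquiv.finTwoArrow (α := ℝ)).symm.trans (MeasurableEquiv.toLp 2 (Fin 2 → ℝ))).trans
    B.toMeasurableEquiv).trans (MeasurableEquiv.addLeft t)

lemma frame_apply (B : Pl ≃ₗᵢ[ℝ] Pl) (t : Pl) (a b : ℝ) :
    frame B t (a, b) = t + a • B (e 0) + b • B (e 1) := by
  have h : a • B (e 0) + b • B (e 1) = B (a • e 0 + b • e 1) := by simp
  rw [add_assoc, h]
  have h2 : a • e 0 + b • e 1 = (WithLp.toLp 2 ![a, b] : Pl) := by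
    ext i; fin_cases i <;> simp [e]
  rw [h2]
  rfl

lemma frame_mp (B : Pl ≃ₗᵢ[ℝ] Pl) (t : Pl) :
    MeasurePreserving (frame B t) volume volume := by
  have h1 := (volume_preserving_finTwoArrow ℝ).symm
  have h2 := PiLp.volume_preserving_toLp (Fin 2)
  have h3 := B.measurePreserving
  have h4 := measurePreserving_add_left (volume : Measure Pl) t
  exact h4.comp (h3.comp (h2.comp h1))

lemma integral_frame (B : Pl ≃ₗᵢ[ℝ] Pl) (t : Pl) (f : Pl → ℝ) :
    ∫ p : ℝ × ℝ, f (t + p.1 • B (e 0) + p.2 • B (e 1)) = ∫ x, f x := by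
  rw [← (frame_mp B t).integral_comp' f]
  refine integral_congr_ae (Filter.Eventually.of_forall (fun p => ?_))
  simp only
  rw [← frame_apply B t p.1 p.2]

/-- Finite squares of indices. -/
noncomputable def Sq (N : ℕ) : Finset (ℤ × ℤ) := Finset.Ico (-(N:ℤ)) N ×ˢ Finset.Ico (-(N:ℤ)) N

lemma big_of_not_mem {N : ℕ} {z : ℤ × ℤ} (hz : z ∉ Sq N) :
    (N:ℝ) ≤ |(z.1:ℝ)| ∨ (N:ℝ) ≤ |(z.2:ℝ)| := by
  by_contra hcon
  push Not at hcon
  apply hz
  obtain ⟨h1, h2⟩ := hcon
  rw [abs_lt] at h1 h2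
  simp only [Sq, Finset.mem_product, Finset.mem_Ico]
  have a1 : (-(N:ℤ)) < z.1 := by exact_mod_cast h1.1
  have a2 : z.1 < N := by exact_mod_cast h1.2
  have a3 : (-(N:ℤ)) < z.2 := by exact_mod_cast h2.1
  have a4 : z.2 < N := by exact_mod_cast h2.2
  omega

lemma far_zero {f : Pl → ℝ} {K : ℝ} (hK : ∀ x, K < ‖x‖ → f x = 0) (B : Pl ≃ₗᵢ[ℝ] Pl) (t : Pl)
    {N : ℝ} (hN : K + ‖t‖ < N) {a b : ℝ} (hab : N ≤ |a| ∨ N ≤ |b|) :
    f (t + a • B (e 0) + b • B (e 1)) = 0 := by
  apply hK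
  have h1 := norm_comb B a b
  have h2 : ‖a • B (e 0) + b • B (e 1)‖ ≤ ‖t + a • B (e 0) + b • B (e 1)‖ + ‖t‖ := by
    have := norm_sub_le (t + a • B (e 0) + b • B (e 1)) t
    rwa [show t + a • B (e 0) + b • B (e 1) - t = a • B (e 0) + b • B (e 1) by abel] at this
  rcases hab with h | h <;> linarith [h1.1, h1.2]

/-- The lattice sum of the cell average is the integral. -/
theorem tile {f : Pl → ℝ} (hf : IsNice f) {K : ℝ} (hK : ∀ x, K < ‖x‖ → f x = 0)
    (B : Pl ≃ₗᵢ[ℝ] Pl) (t : Pl) {N : ℕ} (hN : K + ‖t‖ < N) :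
    ∑ z ∈ Sq N, T (B (e 0)) (B (e 1)) f (pt B t z) = ∫ x, f x := by
  obtain ⟨M, hM⟩ := hf.bdd
  set F : ℝ → ℝ → ℝ := fun a b => f (t + a • B (e 0) + b • B (e 1)) with hF
  have hFm : Measurable (Function.uncurry F) := by
    exact hf.meas.comp (by fun_prop)
  have hFb : ∀ a b, |F a b| ≤ M := fun a b => hM _
  have hFi : ∀ a c d, IntervalIntegrable (fun b => F a b) volume c d := by
    intro a c d
    exact line_int hf (B (e 1)) _ c d
  set G : ℝ → ℝ := fun a => ∫ b in (-(N:ℝ))..N, F a b with hG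
  have hNN : (-(N:ℝ)) ≤ N := by
    have : (0:ℝ) ≤ N := Nat.cast_nonneg N
    linarith
  have hGm : Measurable G := by
    rw [hG]
    simp_rw [intervalIntegral.integral_of_le hNN]
    exact (hFm.stronglyMeasurable.integral_prod_right).measurable
  have hGb : ∀ a, ‖G a‖ ≤ M * |(N:ℝ) - -N| := by
    intro a
    exact intervalIntegral.norm_integral_le_of_norm_le_const (fun b _ => hFb a b)
  have hGi : ∀ c d, IntervalIntegrable G volume c d := by
    intro c d
    refine (intervalIntegrable_const (c := M * |(N:ℝ) - -N|)).mono_fun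
      hGm.aestronglyMeasurable (Filter.Eventually.of_forall (fun a => ?_))
    exact (hGb a).trans (le_abs_self _)
  have h1 : ∀ z : ℤ × ℤ, T (B (e 0)) (B (e 1)) f (pt B t z)
      = ∫ a in (0:ℝ)..1, ∫ b in (0:ℝ)..1, F (z.1 + a) (z.2 + b) := by
    intro z
    unfold T av pt
    simp only [inv_one, one_mul]
    refine intervalIntegral.integral_congr (fun a _ => ?_)
    refine intervalIntegral.integral_congr (fun b _ => ?_)
    simp only [hF]
    congr 1
    rw [add_smul, add_smul]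
    abel
  simp_rw [h1]
  unfold Sq
  rw [Finset.sum_product]
  have h2 : ∀ z1 : ℤ, ∑ z2 ∈ Finset.Ico (-(N:ℤ)) N,
      ∫ a in (0:ℝ)..1, ∫ b in (0:ℝ)..1, F (z1 + a) (z2 + b)
      = ∫ a in (0:ℝ)..1, G (z1 + a) := by
    intro z1
    rw [← intervalIntegral.integral_finsetSum]
    · refine intervalIntegral.integral_congr (fun a _ => ?_)
      exact sum_unit_intervals (F (z1 + a)) (hFi _) N
    · intro z2 _
      have hm : Measurable (fun a : ℝ => ∫ b in (0:ℝ)..1, F (z1 + a) (z2 + b)) := by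
        simp_rw [intervalIntegral.integral_of_le zero_le_one]
        have : Measurable (Function.uncurry fun a b : ℝ => F (z1 + a) (z2 + b)) :=
          hFm.comp (by fun_prop : Measurable fun p : ℝ × ℝ => ((z1:ℝ) + p.1, (z2:ℝ) + p.2))
        exact (this.stronglyMeasurable.integral_prod_right).measurable
      refine (intervalIntegrable_const (c := M)).mono_fun
        hm.aestronglyMeasurable (Filter.Eventually.of_forall (fun a => ?_))
      have := intervalIntegral.norm_integral_le_of_norm_le_const (a := (0:ℝ)) (b := 1)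
        (f := fun b => F (z1 + a) (z2 + b)) (C := M) (fun b _ => hFb _ _)
      simp only [sub_zero, abs_one, mul_one] at this
      exact this.trans (le_abs_self _)
  rw [Finset.sum_congr rfl (fun z1 _ => h2 z1), sum_unit_intervals G hGi N]
  rw [← integral_frame B t f]
  have hz : ∀ p : ℝ × ℝ, p ∉ Ioc (-(N:ℝ)) N ×ˢ Ioc (-(N:ℝ)) N →
      f (t + p.1 • B (e 0) + p.2 • B (e 1)) = 0 := by
    intro p hp
    apply far_zero hK B t hN
    by_contra hcon
    push Not at hcon
    apply hp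
    rw [abs_lt, abs_lt] at hcon
    exact ⟨⟨hcon.1.1, hcon.1.2.le⟩, ⟨hcon.2.1, hcon.2.2.le⟩⟩
  rw [← setIntegral_eq_integral_of_forall_compl_eq_zero hz]
  have hint : IntegrableOn (fun p : ℝ × ℝ => f (t + p.1 • B (e 0) + p.2 • B (e 1)))
      (Ioc (-(N:ℝ)) N ×ˢ Ioc (-(N:ℝ)) N) (volume.prod volume) := by
    refine Measure.integrableOn_of_bounded (M := M) ?_ hFm.aestronglyMeasurable
      (Filter.Eventually.of_forall (fun p => hM _))
    rw [Measure.prod_prod]
    exact ENNReal.mul_ne_top (by simp) (by simp)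
  rw [Measure.volume_eq_prod, setIntegral_prod _ hint, intervalIntegral.integral_of_le hNN]
  refine setIntegral_congr_fun measurableSet_Ioc (fun a _ => ?_)
  simp only [hG]
  rw [intervalIntegral.integral_of_le hNN]

end Pool.Agent.H2.Crit
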