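import Mathlib
import Pool.Agent.H2.Crit.Tile

/-!
# The smoothed weight of a square and its lattice sums
-/

open MeasureTheory Set

namespace Pool.Agent.H2.Crit

/-- Axis-parallel boxes. -/
def bx (a b : Fin 2 → ℝ) : Set Pl := {x | ∀ i, a i ≤ x i ∧ x i ≤ b i}

lemma bx_meas (a b : Fin 2 → ℝ) : MeasurableSet (bx a b) := by
  have : bx a b = ⋂ i, {x : Pl | a i ≤ x i ∧ x i ≤ b i} := by ext; simp [bx]
  rw [this]
  refine MeasurableSet.iInter (fun i => ?_)
  have hi : Measurable (fun x : Pl => x i) := by fun_prop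
  exact (measurableSet_le measurable_const hi).inter (measurableSet_le hi measurable_const)

lemma vol_bx (a b : Fin 2 → ℝ) :
    volume (bx a b) = ENNReal.ofReal (b 0 - a 0) * ENNReal.ofReal (b 1 - a 1) := by
  have h := (PiLp.volume_preserving_ofLp (Fin 2)).measure_preimage
    (s := Set.pi univ (fun i => Icc (a i) (b i)))
    (MeasurableSet.univ_pi (fun i => measurableSet_Icc)).nullMeasurableSet
  have h2 : (@WithLp.ofLp 2 (Fin 2 → ℝ)) ⁻¹' (Set.pi univ (fun i => Icc (a i) (b i)))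
      = bx a b := by
    ext x
    simp only [mem_preimage, mem_univ_pi, mem_Icc, bx, mem_ofPred_eq]
  rw [h2] at h
  rw [h, volume_pi, Measure.pi_pi]
  simp [Real.volume_Icc, Fin.prod_univ_two]

/-- Indicator function of a box. -/
noncomputable def ib (a b : Fin 2 → ℝ) : Pl → ℝ := (bx a b).indicator (fun _ => 1)

lemma norm_le_coord (x : Pl) : ‖x‖ ≤ |x 0| + |x 1| := by
  have h : x = x 0 • e 0 + x 1 • e 1 := by
    ext i; fin_cases i <;> simp [e]
  calc ‖x‖ = ‖x 0 • e 0 + x 1 • e 1‖ := by rw [← h]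
    _ ≤ ‖x 0 • e 0‖ + ‖x 1 • e 1‖ := norm_add_le _ _
    _ = |x 0| + |x 1| := by simp [norm_smul, norm_e]

lemma ib_nonneg (a b : Fin 2 → ℝ) (x : Pl) : 0 ≤ ib a b x :=
  Set.indicator_nonneg (fun _ _ => zero_le_one) x

lemma ib_le_one (a b : Fin 2 → ℝ) (x : Pl) : ib a b x ≤ 1 :=
  Set.indicator_le_self' (fun _ _ => zero_le_one) x

lemma ib_abs (a b : Fin 2 → ℝ) (x : Pl) : |ib a b x| ≤ 1 := by
  rw [abs_of_nonneg (ib_nonneg a b x)]; exact ib_le_one a b x

lemma ib_supp (a b : Fin 2 → ℝ) (x : Pl)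
    (hx : |a 0| + |b 0| + (|a 1| + |b 1|) < ‖x‖) : ib a b x = 0 := by
  refine Set.indicator_of_notMem (fun hm => ?_) _
  have h0 := hm 0
  have h1 := hm 1
  have k0 : |x 0| ≤ |a 0| + |b 0| := by
    rw [abs_le]
    constructor
    · linarith [neg_abs_le (a 0), abs_nonneg (b 0)]
    · linarith [le_abs_self (b 0), abs_nonneg (a 0)]
  have k1 : |x 1| ≤ |a 1| + |b 1| := by
    rw [abs_le]
    constructor
    · linarith [neg_abs_le (a 1), abs_nonneg (b 1)]
    · linarith [le_abs_self (b 1), abs_nonneg (a 1)]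
  linarith [norm_le_coord x]

lemma ib_nice (a b : Fin 2 → ℝ) : IsNice (ib a b) :=
  ⟨measurable_const.indicator (bx_meas a b), ⟨1, ib_abs a b⟩, ⟨_, ib_supp a b⟩⟩

lemma integral_ib (a b : Fin 2 → ℝ) (h0 : a 0 ≤ b 0) (h1 : a 1 ≤ b 1) :
    ∫ x, ib a b x = (b 0 - a 0) * (b 1 - a 1) := by
  unfold ib
  rw [integral_indicator_const (1:ℝ) (bx_meas a b), Measure.real, vol_bx,
    ENNReal.toReal_mul, ENNReal.toReal_ofReal (by linarith), ENNReal.toReal_ofReal (by linarith)]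
  simp

lemma av_one_of {f : Pl → ℝ} {d : Pl} {c r : ℝ} (hc : 0 < c) {x : Pl}
    (h : ∀ a ∈ Icc (0:ℝ) c, f (x + a • d) = r) : av d c f x = r := by
  unfold av
  have : ∫ a in (0:ℝ)..c, f (x + a • d) = ∫ a in (0:ℝ)..c, r := by
    refine intervalIntegral.integral_congr (fun a ha => ?_)
    rw [uIcc_of_le hc.le] at ha
    exact h a ha
  rw [this, intervalIntegral.integral_const, smul_eq_mul, sub_zero, ← mul_assoc,
    inv_mul_cancel₀ hc.ne', one_mul]

lemma av_nonneg {f : Pl → ℝ} (hf : ∀ x, 0 ≤ f x) (d : Pl) {c : ℝ} (hc : 0 < c) (x : Pl) :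
    0 ≤ av d c f x := by
  unfold av
  exact mul_nonneg (inv_nonneg.mpr hc.le)
    (intervalIntegral.integral_nonneg hc.le (fun a _ => hf _))

/-- Number of lattice points in a box. -/
lemma count_box (B : Pl ≃ₗᵢ[ℝ] Pl) (t : Pl) (a b : Fin 2 → ℝ) (h0 : a 0 ≤ b 0)
    (h1 : a 1 ≤ b 1) (G : Finset (ℤ × ℤ)) (hG : ∀ z ∈ G, pt B t z ∈ bx a b) :
    (G.card : ℝ) ≤ (b 0 - a 0 + 4) * (b 1 - a 1 + 4) := by
  set a' : Fin 2 → ℝ := fun i => a i - 2 with ha'
  set b' : Fin 2 → ℝ := fun i => b i + 2 with hb'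
  obtain ⟨N, hN⟩ := exists_nat_gt (|a' 0| + |b' 0| + (|a' 1| + |b' 1|) + ‖t‖
    + (‖t‖ + |a 0| + |b 0| + (|a 1| + |b 1|)))
  have hpos : 0 ≤ ‖t‖ + |a 0| + |b 0| + (|a 1| + |b 1|) := by positivity
  have hpos' : 0 ≤ |a' 0| + |b' 0| + (|a' 1| + |b' 1|) := by positivity
  have ht := tile (ib_nice a' b') (ib_supp a' b') B t (N := N) (by linarith)
  rw [integral_ib a' b' (by simp only [ha', hb']; linarith)
    (by simp only [ha', hb']; linarith)] at ht
  have hT1 : ∀ z ∈ G, T (B (e 0)) (B (e 1)) (ib a' b') (pt B t z) = 1 := by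
    intro z hz
    unfold T
    refine av_one_of one_pos (fun r hr => av_one_of one_pos (fun s hs => ?_))
    unfold ib
    rw [Set.indicator_of_mem]
    intro i
    have hm := hG z hz i
    have hn : |(r • B (e 0) + s • B (e 1)) i| ≤ 2 := by
      refine (coord_le_norm _ i).trans ((norm_add_le _ _).trans ?_)
      rw [norm_smul, norm_smul, norm_B, norm_B, Real.norm_eq_abs, Real.norm_eq_abs,
        abs_of_nonneg hr.1, abs_of_nonneg hs.1]
      linarith [hr.2, hs.2]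
    rw [abs_le] at hn
    rw [add_assoc]
    simp only [PiLp.add_apply, ha', hb'] at hn ⊢
    constructor <;> linarith [hm.1, hm.2, hn.1, hn.2]
  have hsub : G ⊆ Sq N := by
    intro z hz
    by_contra hcon
    have hbig := big_of_not_mem hcon
    have hk := norm_comb B (z.1:ℝ) (z.2:ℝ)
    have hm : ‖pt B t z‖ ≤ |a 0| + |b 0| + (|a 1| + |b 1|) := by
      by_contra hlt
      have h3 := ib_supp a b (pt B t z) (lt_of_not_ge hlt)
      unfold ib at h3
      rw [Set.indicator_of_mem (hG z hz)] at h3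
      exact one_ne_zero h3
    have h2 : ‖(z.1:ℝ) • B (e 0) + (z.2:ℝ) • B (e 1)‖ ≤ ‖pt B t z‖ + ‖t‖ := by
      have := norm_sub_le (pt B t z) t
      rwa [show pt B t z - t = (z.1:ℝ) • B (e 0) + (z.2:ℝ) • B (e 1) by unfold pt; abel] at this
    rcases hbig with h | h <;> linarith [hk.1, hk.2, norm_nonneg t]
  have hsum : (G.card : ℝ) = ∑ z ∈ G, T (B (e 0)) (B (e 1)) (ib a' b') (pt B t z) := by
    rw [Finset.sum_congr rfl hT1]; simp
  rw [hsum]
  refine (Finset.sum_le_sum_of_subset_of_nonneg hsub (fun z _ _ => ?_)).trans ?_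
  · exact av_nonneg (av_nonneg (ib_nonneg a' b') _ one_pos) _ one_pos _
  · rw [ht]
    simp only [ha', hb']
    refine le_of_eq ?_
    ring

/-- Lattice sum. -/
noncomputable def LS (B : Pl ≃ₗᵢ[ℝ] Pl) (t : Pl) (f : Pl → ℝ) : ℝ := ∑' z, f (pt B t z)

lemma LS_eq {f : Pl → ℝ} {K : ℝ} (hK : ∀ x, K < ‖x‖ → f x = 0) (B : Pl ≃ₗᵢ[ℝ] Pl) (t : Pl)
    {N : ℕ} (hN : K + ‖t‖ < N) : LS B t f = ∑ z ∈ Sq N, f (pt B t z) := by
  unfold LS
  refine tsum_eq_sum (fun z hz => ?_)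
  exact far_zero hK B t hN (big_of_not_mem hz)

lemma LS_T {f : Pl → ℝ} (hf : IsNice f) (B : Pl ≃ₗᵢ[ℝ] Pl) (t : Pl) :
    LS B t (T (B (e 0)) (B (e 1)) f) = ∫ x, f x := by
  obtain ⟨K, hK⟩ := hf.supp
  obtain ⟨K', hK'⟩ := (T_nice (B (e 0)) (B (e 1)) hf).supp
  obtain ⟨N, hN⟩ := exists_nat_gt (max K K' + ‖t‖)
  rw [LS_eq hK' B t (N := N) (by linarith [le_max_right K K'])]
  exact tile hf hK B t (by linarith [le_max_left K K'])

lemma LS_S {f : Pl → ℝ} (hf : IsNice f) (B : Pl ≃ₗᵢ[ℝ] Pl) (t : Pl) :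
    LS B t (S (B (e 0)) (B (e 1)) f) = LS B t f - ∫ x, f x := by
  rw [← LS_T hf B t]
  obtain ⟨K, hK⟩ := hf.supp
  obtain ⟨K', hK'⟩ := (T_nice (B (e 0)) (B (e 1)) hf).supp
  obtain ⟨K'', hK''⟩ := (S_nice (B (e 0)) (B (e 1)) hf).supp
  obtain ⟨N, hN⟩ := exists_nat_gt (max K (max K' K'') + ‖t‖)
  have h1 := le_max_left K (max K' K'')
  have h2 := le_max_right K (max K' K'')
  have h3 := le_max_left K' K''
  have h4 := le_max_right K' K''
  rw [LS_eq hK'' B t (N := N) (by linarith), LS_eq hK B t (N := N) (by linarith),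
    LS_eq hK' B t (N := N) (by linarith), ← Finset.sum_sub_distrib]
  rfl

lemma integral_S {f : Pl → ℝ} (hf : IsNice f) (u v : Pl) : ∫ x, S u v f x = 0 := by
  unfold S
  rw [integral_sub (nice_integrable hf) (nice_integrable (T_nice u v hf))]
  unfold T
  rw [integral_av (av_nice hf _ one_pos) _ one_pos, integral_av hf _ one_pos, sub_self]

lemma LS_iter (B : Pl ≃ₗᵢ[ℝ] Pl) (t : Pl) (f : NF) (k : ℕ) :
    LS B t ((SN (B (e 0)) (B (e 1)))^[k + 1] f).1 = LS B t f.1 - ∫ x, f.1 x := by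
  induction k with
  | zero => exact LS_S f.2 B t
  | succ k ih =>
    rw [Function.iterate_succ_apply']
    have h1 := LS_S ((SN (B (e 0)) (B (e 1)))^[k + 1] f).2 B t
    have h2 : ∫ x, ((SN (B (e 0)) (B (e 1)))^[k + 1] f).1 x = 0 := by
      rw [Function.iterate_succ_apply']
      exact integral_S ((SN (B (e 0)) (B (e 1)))^[k] f).2 _ _
    rw [h2, sub_zero, ih] at h1
    exact h1

/-- A lattice sum of a small function with small support. -/
lemma LS_small {f : Pl → ℝ} {K ε : ℝ} (hK0 : 0 ≤ K) (hK : ∀ x, K < ‖x‖ → f x = 0)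
    (hε : ∀ x, |f x| ≤ ε) (B : Pl ≃ₗᵢ[ℝ] Pl) (t : Pl) :
    |LS B t f| ≤ (2 * K + 4) ^ 2 * ε := by
  classical
  obtain ⟨N, hN⟩ := exists_nat_gt (K + ‖t‖)
  have hε0 : 0 ≤ ε := (abs_nonneg _).trans (hε 0)
  rw [LS_eq hK B t hN]
  set G : Finset (ℤ × ℤ) := (Sq N).filter (fun z => f (pt B t z) ≠ 0) with hG
  have h1 : ∑ z ∈ Sq N, f (pt B t z) = ∑ z ∈ G, f (pt B t z) := by
    rw [hG, Finset.sum_filter_ne_zero]
  rw [h1]
  refine (Finset.abs_sum_le_sum_abs _ _).trans ?_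
  refine (Finset.sum_le_sum (fun z _ => hε (pt B t z))).trans ?_
  rw [Finset.sum_const, nsmul_eq_mul]
  refine mul_le_mul_of_nonneg_right ?_ hε0
  have h2 := count_box B t (fun _ => -K) (fun _ => K) (by linarith) (by linarith) G ?_
  · refine h2.trans (le_of_eq ?_)
    ring
  · intro z hz i
    rw [hG, Finset.mem_filter] at hz
    have h3 : ‖pt B t z‖ ≤ K := by
      by_contra hlt
      exact hz.2 (hK _ (lt_of_not_ge hlt))
    have h4 := (coord_le_norm (pt B t z) i).trans h3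
    rw [abs_le] at h4
    exact h4

end Pool.Agent.H2.Crit
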