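import Mathlib
import Pool.Agent.H2.Crit.Weight

/-!
# The weight `w = A^m 1_[-R,R]^2`
-/

open MeasureTheory Set

namespace Pool.Agent.H2.Crit

/-- The square as a nice function. -/
noncomputable def sqf (R : ℝ) : NF := ⟨ib (fun _ => -R) (fun _ => R), ib_nice _ _⟩

/-- The weight. -/
noncomputable def W (R : ℝ) (m : ℕ) : Pl → ℝ := (AN^[m] (sqf R)).1

lemma W_succ (R : ℝ) (m : ℕ) : W R (m + 1) = A (W R m) := by
  unfold W
  rw [Function.iterate_succ_apply']
  rfl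

lemma W_nice (R : ℝ) (m : ℕ) : IsNice (W R m) := (AN^[m] (sqf R)).2

lemma W_nonneg (R : ℝ) (m : ℕ) (x : Pl) : 0 ≤ W R m x := by
  induction m generalizing x with
  | zero => exact ib_nonneg _ _ x
  | succ m ih =>
    rw [W_succ]
    exact av_nonneg (av_nonneg ih _ (by norm_num)) _ (by norm_num) x

lemma W_abs (R : ℝ) (m : ℕ) (x : Pl) : |W R m x| ≤ 1 := by
  induction m generalizing x with
  | zero => exact ib_abs _ _ x
  | succ m ih =>
    rw [W_succ]
    exact A_abs_le ih x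

lemma W_le_one (R : ℝ) (m : ℕ) (x : Pl) : W R m x ≤ 1 := (le_abs_self _).trans (W_abs R m x)

lemma W_integral {R : ℝ} (hR : 0 ≤ R) (m : ℕ) : ∫ x, W R m x = 4 * R ^ 2 := by
  induction m with
  | zero =>
    have : ∫ x, W R 0 x = ∫ x, ib (fun _ => -R) (fun _ => R) x := rfl
    rw [this, integral_ib _ _ (by simpa using by linarith) (by simpa using by linarith)]
    ring
  | succ m ih =>
    rw [W_succ]
    unfold A
    rw [integral_av (av_nice (W_nice R m) _ (by norm_num)) _ (by norm_num),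
      integral_av (W_nice R m) _ (by norm_num), ih]

lemma W_lip (R : ℝ) (m : ℕ) (x y : Pl) :
    |W R (m + 1) x - W R (m + 1) y| ≤ 1 / 8 * (|x 0 - y 0| + |x 1 - y 1|) := by
  rw [W_succ]
  exact A_lip (W_nice R m) (W_abs R m) x y

lemma A_supp {f : Pl → ℝ} {K : ℝ} (hK : ∀ x, K < ‖x‖ → f x = 0) (x : Pl)
    (hx : K + 32 < ‖x‖) : A f x = 0 := by
  unfold A
  refine av_supp (K := K + 16) (fun y hy => av_supp hK (e 1) (by norm_num) y ?_) (e 0)
    (by norm_num) x ?_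
  · rw [norm_e]; linarith
  · rw [norm_e]; linarith

lemma S_supp {u v : Pl} (hu : ‖u‖ = 1) (hv : ‖v‖ = 1) {f : Pl → ℝ} {K : ℝ}
    (hK : ∀ x, K < ‖x‖ → f x = 0) (x : Pl) (hx : K + 2 < ‖x‖) : S u v f x = 0 := by
  unfold S T
  rw [hK x (by linarith), av_supp (K := K + 1) (fun y hy => av_supp hK v one_pos y ?_) u
    one_pos x ?_, sub_zero]
  · rw [hu]; linarith
  · rw [hv]; linarith

lemma W_supp {R : ℝ} (hR : 0 ≤ R) (m : ℕ) (x : Pl) (hx : 4 * R + 32 * m < ‖x‖) :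
    W R m x = 0 := by
  induction m generalizing x with
  | zero =>
    refine ib_supp _ _ x ?_
    simp only [abs_neg, abs_of_nonneg hR]
    simp only [Nat.cast_zero, mul_zero, add_zero] at hx
    linarith
  | succ m ih =>
    rw [W_succ]
    refine A_supp ih x ?_
    push_cast at hx
    linarith

lemma W_const {R : ℝ} (m : ℕ) (x : Pl) (r : ℝ)
    (h : ∀ a b : ℝ, 0 ≤ a → a ≤ 16 * m → 0 ≤ b → b ≤ 16 * m →
      W R 0 (x + a • e 0 + b • e 1) = r) : W R m x = r := by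
  induction m generalizing x with
  | zero => simpa using h 0 0 le_rfl (by simp) le_rfl (by simp)
  | succ m ih =>
    rw [W_succ]
    unfold A
    refine av_one_of (by norm_num) (fun a ha => av_one_of (by norm_num) (fun b hb => ?_))
    refine ih _ (fun a' b' ha' ha2 hb' hb2 => ?_)
    have := h (a + a') (b + b') (by linarith [ha.1]) (by push_cast; linarith [ha.2])
      (by linarith [hb.1]) (by push_cast; linarith [hb.2])
    rw [← this]
    congr 1
    rw [add_smul, add_smul]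
    abel

lemma W_one {R : ℝ} (m : ℕ) (x : Pl) (hx : x ∈ bx (fun _ => -R) (fun _ => R - 16 * m)) :
    W R m x = 1 := by
  refine W_const m x 1 (fun a b ha ha2 hb hb2 => ?_)
  change ib _ _ _ = 1
  unfold ib
  rw [Set.indicator_of_mem]
  have h0 := hx 0
  have h1 := hx 1
  simp only at h0 h1
  intro i
  fin_cases i
  · simp [e]; constructor <;> linarith [h0.1, h0.2]
  · simp [e]; constructor <;> linarith [h1.1, h1.2]

lemma W_zero {R : ℝ} (m : ℕ) (x : Pl) (hx : x ∉ bx (fun _ => -R - 16 * m) (fun _ => R)) :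
    W R m x = 0 := by
  refine W_const m x 0 (fun a b ha ha2 hb hb2 => ?_)
  change ib _ _ _ = 0
  unfold ib
  rw [Set.indicator_of_notMem]
  intro hm
  apply hx
  have h0 := hm 0
  have h1 := hm 1
  simp [e] at h0 h1
  intro i
  fin_cases i
  · simp; constructor <;> linarith [h0.1, h0.2]
  · simp; constructor <;> linarith [h1.1, h1.2]

lemma iter_supp {u v : Pl} (hu : ‖u‖ = 1) (hv : ‖v‖ = 1) (f : NF) {K : ℝ}
    (hK : ∀ x, K < ‖x‖ → f.1 x = 0) (m : ℕ) (x : Pl) (hx : K + 2 * m < ‖x‖) :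
    ((SN u v)^[m] f).1 x = 0 := by
  induction m generalizing x with
  | zero => exact hK x (by simpa using hx)
  | succ m ih =>
    rw [Function.iterate_succ_apply']
    refine S_supp hu hv ih x ?_
    push_cast at hx
    linarith

lemma LS_W {R : ℝ} (hR : 0 ≤ R) (B : Pl ≃ₗᵢ[ℝ] Pl) (t : Pl) (m : ℕ) :
    |LS B t (W R (m + 1)) - 4 * R ^ 2| ≤
      (2 * (4 * R + 34 * (m + 1)) + 4) ^ 2 * (1 / 2 ^ (m + 1)) := by
  have h1 := LS_iter B t (AN^[m + 1] (sqf R)) m
  have h2 : ∫ x, (AN^[m + 1] (sqf R)).1 x = 4 * R ^ 2 := W_integral hR (m + 1)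
  rw [h2] at h1
  change _ = LS B t (W R (m + 1)) - _ at h1
  rw [← h1]
  refine LS_small (by positivity) (fun x hx => ?_) (fun x => ?_) B t
  · refine iter_supp (norm_B B 0) (norm_B B 1) _ (K := 4 * R + 32 * (m + 1))
      (fun y hy => W_supp hR (m + 1) y (by push_cast; linarith)) (m + 1) x ?_
    push_cast
    linarith
  · exact iterate_small (norm_B B 0) (norm_B B 1) (sqf R) (ib_abs _ _) (m + 1) x

lemma LS_W_le {R : ℝ} (hR : 0 ≤ R) (B : Pl ≃ₗᵢ[ℝ] Pl) (t : Pl) {r : ℕ} (hr : 1 ≤ r)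
    (hRr : R ≤ 2 ^ r) : LS B t (W R (4 * r + 20)) ≤ 4 * R ^ 2 + 1 := by
  have h := LS_W hR B t (4 * r + 19)
  have h4 : (4:ℝ) ≤ 4 ^ r := by
    calc (4:ℝ) = 4 ^ 1 := by norm_num
      _ ≤ 4 ^ r := pow_le_pow_right₀ (by norm_num) hr
  have h24 : (2:ℝ) ^ r ≤ 4 ^ r := pow_le_pow_left₀ (by norm_num) (by norm_num) r
  have hr2 : (r:ℝ) ≤ 4 ^ r := by
    have : (r:ℝ) < 2 ^ r := by exact_mod_cast Nat.lt_two_pow_self
    linarith
  have hb : 2 * (4 * R + 34 * ((4 * r + 19 : ℕ) + 1)) + 4 ≤ 2 ^ (2 * r + 10) := by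
    push_cast
    have : (2:ℝ) ^ (2 * r + 10) = 1024 * 4 ^ r := by
      rw [pow_add, pow_mul]; norm_num; ring
    rw [this]
    linarith
  have hb2 : (2 * (4 * R + 34 * ((4 * r + 19 : ℕ) + 1)) + 4) ^ 2 * (1 / 2 ^ (4 * r + 19 + 1))
      ≤ (1:ℝ) := by
    rw [mul_one_div, div_le_one (by positivity)]
    calc (2 * (4 * R + 34 * (((4 * r + 19 : ℕ):ℝ) + 1)) + 4) ^ 2 ≤ (2 ^ (2 * r + 10)) ^ 2 :=
          pow_le_pow_left₀ (by positivity) hb 2
      _ = 2 ^ (4 * r + 19 + 1) := by rw [← pow_mul]; congr 1; ring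
  have h3 := (abs_le.mp (h.trans hb2)).2
  have h5 : 4 * r + 20 = 4 * r + 19 + 1 := by ring
  rw [h5]
  linarith

end Pool.Agent.H2.Crit
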