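import Mathlib
import Pool.Agent.H2.Crit.W
import Pool.Agent.H2.Crit.Round

/-!
# Cells, nets of motions, and the sets hit by a lattice
-/

open MeasureTheory Set

namespace Pool.Agent.H2.Crit

/-- Index of the cell of side `s` containing `x`. -/
noncomputable def cell (s : ℝ) (x : Pl) : ℤ × ℤ := (⌊x 0 / s⌋, ⌊x 1 / s⌋)

/-- Corner of the cell with index `k`. -/
noncomputable def corner (s : ℝ) (k : ℤ × ℤ) : Pl := (s * k.1) • e 0 + (s * k.2) • e 1

lemma corner_zero (s : ℝ) (k : ℤ × ℤ) : corner s k 0 = s * k.1 := by simp [corner, e]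
lemma corner_one (s : ℝ) (k : ℤ × ℤ) : corner s k 1 = s * k.2 := by simp [corner, e]

/-- Shrunken closed cell. -/
def scell (s τ : ℝ) (k : ℤ × ℤ) : Set Pl :=
  bx (fun i => corner s k i + τ) (fun i => corner s k i + s - τ)

lemma cell_close {s : ℝ} (hs : 0 < s) (x : Pl) (i : Fin 2) :
    corner s (cell s x) i ≤ x i ∧ x i < corner s (cell s x) i + s := by
  have key : ∀ y : ℝ, s * ⌊y / s⌋ ≤ y ∧ y < s * ⌊y / s⌋ + s := by
    intro y
    have h1 := Int.floor_le (y / s)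
    have h2 := Int.lt_floor_add_one (y / s)
    rw [le_div_iff₀ hs] at h1
    rw [div_lt_iff₀ hs] at h2
    constructor <;> linarith
  fin_cases i
  · simpa [corner_zero, cell] using key (x 0)
  · simpa [corner_one, cell] using key (x 1)

lemma cell_eq {s : ℝ} (hs : 0 < s) {x : Pl} {k : ℤ × ℤ}
    (h : ∀ i, corner s k i ≤ x i ∧ x i < corner s k i + s) : cell s x = k := by
  have key : ∀ (y : ℝ) (n : ℤ), s * n ≤ y → y < s * n + s → ⌊y / s⌋ = n := by
    intro y n h1 h2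
    rw [Int.floor_eq_iff]
    rw [le_div_iff₀ hs, div_lt_iff₀ hs]
    constructor <;> linarith
  have h0 := h 0
  have h1 := h 1
  rw [corner_zero] at h0
  rw [corner_one] at h1
  ext
  · exact key _ _ h0.1 h0.2
  · exact key _ _ h1.1 h1.2

lemma cell_of_scell {s τ : ℝ} (hs : 0 < s) {x y : Pl} {k : ℤ × ℤ} (hx : x ∈ scell s τ k)
    (hy : ∀ i, |y i - x i| < τ) : cell s y = k := by
  refine cell_eq hs (fun i => ?_)
  have h1 := hx i
  have h2 := abs_lt.mp (hy i)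
  simp only at h1
  constructor <;> linarith [h1.1, h1.2, h2.1, h2.2]

/-- The approximate lattice points attached to six integer parameters. -/
noncomputable def apt (n : ℕ) (π : Fin 6 → ℤ) (z : ℤ × ℤ) : Pl :=
  (((π 0 : ℝ) + z.1 * π 1 + z.2 * π 2) / n) • e 0 +
    (((π 3 : ℝ) + z.1 * π 4 + z.2 * π 5) / n) • e 1

/-- The parameters of a lattice. -/
noncomputable def par (n : ℕ) (B : Pl ≃ₗᵢ[ℝ] Pl) (t : Pl) : Fin 6 → ℤ :=
  ![⌊t 0 * n⌋, ⌊B (e 0) 0 * n⌋, ⌊B (e 1) 0 * n⌋, ⌊t 1 * n⌋, ⌊B (e 0) 1 * n⌋, ⌊B (e 1) 1 * n⌋]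

lemma floor_close {n : ℕ} (hn : 0 < n) (y : ℝ) : |(⌊y * n⌋ : ℝ) / n - y| ≤ 1 / n := by
  have hn' : (0:ℝ) < n := by exact_mod_cast hn
  have h1 := Int.floor_le (y * n)
  have h2 := Int.lt_floor_add_one (y * n)
  rw [abs_le]
  constructor
  · have : (y * n - 1) / n ≤ (⌊y * n⌋ : ℝ) / n := div_le_div_of_nonneg_right (by linarith) hn'.le
    rw [sub_div, mul_div_assoc, div_self hn'.ne', mul_one] at this
    linarith
  · have : (⌊y * n⌋ : ℝ) / n ≤ y * n / n := div_le_div_of_nonneg_right h1 hn'.le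
    rw [mul_div_assoc, div_self hn'.ne', mul_one] at this
    have h3 : (0:ℝ) < 1 / n := by positivity
    linarith

lemma floor_mem {n : ℕ} {y : ℝ} (hy : |y| ≤ 1) :
    ⌊y * n⌋ ∈ Finset.Icc (-(n:ℤ)) n := by
  rw [abs_le] at hy
  have hn' : (0:ℝ) ≤ n := Nat.cast_nonneg n
  rw [Finset.mem_Icc]
  constructor
  · rw [Int.le_floor]; push_cast; nlinarith
  · have : (⌊y * n⌋ : ℝ) ≤ n := (Int.floor_le _).trans (by nlinarith)
    exact_mod_cast this

lemma par_mem {n : ℕ} (B : Pl ≃ₗᵢ[ℝ] Pl) {t : Pl} (ht : ‖t‖ ≤ 1) :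
    par n B t ∈ Fintype.piFinset (fun _ : Fin 6 => Finset.Icc (-(n:ℤ)) n) := by
  rw [Fintype.mem_piFinset]
  have hB : ∀ i j, |B (e i) j| ≤ 1 := fun i j => (coord_le_norm _ _).trans (norm_B B i).le
  have htj : ∀ j, |t j| ≤ 1 := fun j => (coord_le_norm _ _).trans ht
  intro i
  fin_cases i
  · exact floor_mem (htj 0)
  · exact floor_mem (hB 0 0)
  · exact floor_mem (hB 1 0)
  · exact floor_mem (htj 1)
  · exact floor_mem (hB 0 1)
  · exact floor_mem (hB 1 1)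

lemma apt_close {n : ℕ} (hn : 0 < n) (B : Pl ≃ₗᵢ[ℝ] Pl) (t : Pl) (z : ℤ × ℤ) (i : Fin 2) :
    |apt n (par n B t) z i - pt B t z i| ≤ (1 + |(z.1:ℝ)| + |(z.2:ℝ)|) / n := by
  have hn' : (0:ℝ) < n := by exact_mod_cast hn
  have key : ∀ a b c : ℝ, |((⌊a * n⌋ : ℝ) + z.1 * ⌊b * n⌋ + z.2 * ⌊c * n⌋) / n
      - (a + z.1 * b + z.2 * c)| ≤ (1 + |(z.1:ℝ)| + |(z.2:ℝ)|) / n := by
    intro a b c
    have e1 : ((⌊a * n⌋ : ℝ) + z.1 * ⌊b * n⌋ + z.2 * ⌊c * n⌋) / n - (a + z.1 * b + z.2 * c)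
        = ((⌊a * n⌋ : ℝ) / n - a) + z.1 * ((⌊b * n⌋ : ℝ) / n - b)
          + z.2 * ((⌊c * n⌋ : ℝ) / n - c) := by ring
    rw [e1]
    refine (abs_add_three _ _ _).trans ?_
    rw [abs_mul, abs_mul, add_div, add_div]
    have h1 := floor_close hn a
    have h2 := mul_le_mul_of_nonneg_left (floor_close hn b) (abs_nonneg (z.1:ℝ))
    have h3 := mul_le_mul_of_nonneg_left (floor_close hn c) (abs_nonneg (z.2:ℝ))
    rw [mul_one_div] at h2 h3
    linarith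
  fin_cases i
  · simpa [apt, par, pt, e] using key (t 0) (B (e 0) 0) (B (e 1) 0)
  · simpa [apt, par, pt, e] using key (t 1) (B (e 0) 1) (B (e 1) 1)

end Pool.Agent.H2.Crit
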