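import Mathlib
import Pool.Agent.H2.Crit.Net

/-!
# Estimates for the sets of cells hit by a lattice
-/

open MeasureTheory Set

namespace Pool.Agent.H2.Crit

/-- The cells hit by the approximate lattice. -/
noncomputable def hit (s : ℝ) (n Z Nc : ℕ) (π : Fin 6 → ℤ) : Finset (ℤ × ℤ) :=
  ((Sq Z).image (fun z => cell s (apt n π z))).filter (fun k => k ∈ Sq Nc)

lemma hit_sub (s : ℝ) (n Z Nc : ℕ) (π : Fin 6 → ℤ) : hit s n Z Nc π ⊆ Sq Nc := by
  intro k hk
  exact (Finset.mem_filter.mp hk).2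

lemma corner_apt {s : ℝ} (hs : 0 < s) (n : ℕ) (B : Pl ≃ₗᵢ[ℝ] Pl) (t : Pl) (z : ℤ × ℤ)
    (hap : ∀ i, |apt n (par n B t) z i - pt B t z i| ≤ s) (i : Fin 2) :
    |corner s (cell s (apt n (par n B t) z)) i - pt B t z i| ≤ 2 * s := by
  have h1 := cell_close hs (apt n (par n B t) z) i
  have h2 := abs_le.mp (hap i)
  rw [abs_le]
  constructor <;> linarith [h1.1, h1.2, h2.1, h2.2]

lemma sum_hit_le {s : ℝ} (hs : 0 < s) {n Z Nc : ℕ} {R : ℝ} (m : ℕ)
    (B : Pl ≃ₗᵢ[ℝ] Pl) (t : Pl)
    (hap : ∀ z ∈ Sq Z, ∀ i, |apt n (par n B t) z i - pt B t z i| ≤ s) :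
    ∑ k ∈ hit s n Z Nc (par n B t), W R (m + 1) (corner s k)
      ≤ ∑ z ∈ Sq Z, W R (m + 1) (pt B t z) + (Sq Z).card * (s / 2) := by
  set g : ℤ × ℤ → ℤ × ℤ := fun z => cell s (apt n (par n B t) z) with hg
  have h1 : ∑ k ∈ hit s n Z Nc (par n B t), W R (m + 1) (corner s k)
      ≤ ∑ k ∈ (Sq Z).image g, W R (m + 1) (corner s k) :=
    Finset.sum_le_sum_of_subset_of_nonneg (Finset.filter_subset _ _)
      (fun k _ _ => W_nonneg R (m + 1) _)
  have h2 : ∑ k ∈ (Sq Z).image g, W R (m + 1) (corner s k)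
      ≤ ∑ z ∈ Sq Z, W R (m + 1) (corner s (g z)) :=
    Finset.sum_image_le_of_nonneg (fun k _ => W_nonneg R (m + 1) _)
  refine h1.trans (h2.trans ?_)
  rw [← nsmul_eq_mul, ← Finset.sum_const, ← Finset.sum_add_distrib]
  refine Finset.sum_le_sum (fun z hz => ?_)
  have h3 := W_lip R m (corner s (g z)) (pt B t z)
  have h4 := corner_apt hs n B t z (hap z hz)
  have h5 := (abs_le.mp h3).2
  have h60 := h4 0
  have h61 := h4 1
  simp only [hg] at h5 ⊢
  linarith

lemma W_trans {R : ℝ} (m : ℕ) (c : Pl) (h0 : 0 < W R m c) (h1 : W R m c < 1) :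
    (∀ i, -R - 16 * m ≤ c i ∧ c i ≤ R) ∧ ∃ i, c i < -R ∨ R - 16 * m < c i := by
  constructor
  · by_contra hcon
    have : c ∉ bx (fun _ => -R - 16 * m) (fun _ => R) := hcon
    rw [W_zero m c this] at h0
    exact lt_irrefl _ h0
  · by_contra hcon
    push Not at hcon
    have : c ∈ bx (fun _ => -R) (fun _ => R - 16 * m) := fun i => hcon i
    rw [W_one m c this] at h1
    exact lt_irrefl _ h1

lemma frac_hit_le {s : ℝ} (hs : 0 < s) (hs1 : 2 * s ≤ 1) {n Z Nc : ℕ} {R : ℝ} (hR : 0 ≤ R)
    (m : ℕ) (B : Pl ≃ₗᵢ[ℝ] Pl) (t : Pl)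
    (hap : ∀ z ∈ Sq Z, ∀ i, |apt n (par n B t) z i - pt B t z i| ≤ s) :
    (((hit s n Z Nc (par n B t)).filter
      (fun k => 0 < W R m (corner s k) ∧ W R m (corner s k) < 1)).card : ℝ)
      ≤ 4 * ((16 * m + 6) * (2 * R + 16 * m + 6)) := by
  classical
  set g : ℤ × ℤ → ℤ × ℤ := fun z => cell s (apt n (par n B t) z) with hg
  set G := (Sq Z).filter (fun z => 0 < W R m (corner s (g z)) ∧ W R m (corner s (g z)) < 1)
    with hG
  have hsub : (hit s n Z Nc (par n B t)).filter
      (fun k => 0 < W R m (corner s k) ∧ W R m (corner s k) < 1) ⊆ G.image g := by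
    intro k hk
    rw [Finset.mem_filter] at hk
    obtain ⟨hk1, hk2⟩ := hk
    have hk3 := (Finset.mem_filter.mp hk1).1
    rw [Finset.mem_image] at hk3
    obtain ⟨z, hz, hzk⟩ := hk3
    rw [Finset.mem_image]
    refine ⟨z, ?_, hzk⟩
    rw [hG, Finset.mem_filter]
    refine ⟨hz, ?_⟩
    have : g z = k := hzk
    rw [this]
    exact hk2
  have hcard : (((hit s n Z Nc (par n B t)).filter
      (fun k => 0 < W R m (corner s k) ∧ W R m (corner s k) < 1)).card : ℝ) ≤ G.card := by
    exact_mod_cast (Finset.card_le_card hsub).trans Finset.card_image_le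
  refine hcard.trans ?_
  have hpt : ∀ z ∈ G, (∀ i, -R - 16 * m - 1 ≤ pt B t z i ∧ pt B t z i ≤ R + 1) ∧
      ∃ i, pt B t z i ≤ -R + 1 ∨ R - 16 * m - 1 ≤ pt B t z i := by
    intro z hz
    rw [hG, Finset.mem_filter] at hz
    have h1 := W_trans m _ hz.2.1 hz.2.2
    have h2 := corner_apt hs n B t z (hap z hz.1)
    refine ⟨fun i => ?_, ?_⟩
    · have h3 := h1.1 i
      have h4 := abs_le.mp (h2 i)
      simp only [hg] at h3
      constructor <;> linarith [h3.1, h3.2, h4.1, h4.2]
    · obtain ⟨i, hi⟩ := h1.2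
      refine ⟨i, ?_⟩
      have h4 := abs_le.mp (h2 i)
      simp only [hg] at hi
      rcases hi with hi | hi
      · left; linarith [h4.1, h4.2]
      · right; linarith [h4.1, h4.2]
  -- the four strips
  set a1 : Fin 2 → ℝ := fun _ => -R - 16 * m - 1 with ha1
  set b1 : Fin 2 → ℝ := fun _ => R + 1 with hb1
  have hm0 : (0:ℝ) ≤ m := Nat.cast_nonneg m
  have hstrip : ∀ (i : Fin 2) (b : Bool), ((G.filter (fun z =>
      if b then pt B t z i ≤ -R + 1 else R - 16 * m - 1 ≤ pt B t z i)).card : ℝ)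
      ≤ (16 * m + 6) * (2 * R + 16 * m + 6) := by
    intro i b
    cases b with
    | true =>
      refine (count_box B t a1 (fun j => if j = i then -R + 1 else R + 1) ?_ ?_ _ ?_).trans ?_
      · simp only [ha1]; split_ifs <;> linarith
      · simp only [ha1]; split_ifs <;> linarith
      · intro z hz j
        rw [Finset.mem_filter] at hz
        have h3 := (hpt z hz.1).1 j
        have h4 : pt B t z i ≤ -R + 1 := by simpa using hz.2
        simp only [ha1]
        refine ⟨h3.1, ?_⟩
        split_ifs with hji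
        · rw [hji]; exact h4
        · exact h3.2
      · fin_cases i
        · simp only [ha1]; norm_num; nlinarith
        · simp only [ha1]; norm_num; nlinarith
    | false =>
      refine (count_box B t (fun j => if j = i then R - 16 * m - 1 else -R - 16 * m - 1) b1
        ?_ ?_ _ ?_).trans ?_
      · simp only [hb1]; split_ifs <;> linarith
      · simp only [hb1]; split_ifs <;> linarith
      · intro z hz j
        rw [Finset.mem_filter] at hz
        have h3 := (hpt z hz.1).1 j
        have h4 : R - 16 * m - 1 ≤ pt B t z i := by simpa using hz.2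
        simp only [hb1]
        refine ⟨?_, h3.2⟩
        split_ifs with hji
        · rw [hji]; exact h4
        · exact h3.1
      · fin_cases i
        · simp only [hb1]; norm_num; nlinarith
        · simp only [hb1]; norm_num; nlinarith
  have hcov : G ⊆ (Finset.univ : Finset (Fin 2 × Bool)).biUnion (fun q => G.filter (fun z =>
      if q.2 then pt B t z q.1 ≤ -R + 1 else R - 16 * m - 1 ≤ pt B t z q.1)) := by
    intro z hz
    obtain ⟨i, hi⟩ := (hpt z hz).2
    rw [Finset.mem_biUnion]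
    rcases hi with hi | hi
    · exact ⟨(i, true), Finset.mem_univ _, by rw [Finset.mem_filter]; exact ⟨hz, by simpa using hi⟩⟩
    · exact ⟨(i, false), Finset.mem_univ _, by rw [Finset.mem_filter]; exact ⟨hz, by simpa using hi⟩⟩
  have h1 : (G.card : ℝ) ≤ ∑ q : Fin 2 × Bool, ((G.filter (fun z =>
      if q.2 then pt B t z q.1 ≤ -R + 1 else R - 16 * m - 1 ≤ pt B t z q.1)).card : ℝ) := by
    exact_mod_cast (Finset.card_le_card hcov).trans Finset.card_biUnion_le
  refine h1.trans ((Finset.sum_le_sum (fun q _ => hstrip q.1 q.2)).trans (le_of_eq ?_))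
  rw [Finset.sum_const, Finset.card_univ]
  simp

/-- The number of lattice points in a union of shrunken cells. -/
lemma count_cells {s τ : ℝ} (hs : 0 < s) (hs1 : 2 * s < 1) (hτ : 0 < τ) {n Z Nc : ℕ}
    (B : Pl ≃ₗᵢ[ℝ] Pl) (t : Pl) (ht : ‖t‖ ≤ 1) (hZ : 2 * (s * Nc) + 1 < Z)
    (hap : ∀ z ∈ Sq Z, ∀ i, |apt n (par n B t) z i - pt B t z i| < τ)
    (K : Finset (ℤ × ℤ)) (hK : K ⊆ Sq Nc) (G : Finset (ℤ × ℤ))
    (hG : ∀ z ∈ G, ∃ k ∈ K, pt B t z ∈ scell s τ k) :
    G.card ≤ (K ∩ hit s n Z Nc (par n B t)).card := by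
  classical
  choose! f hfK hf using hG
  refine Finset.card_le_card_of_injOn f (fun z hz => ?_) (fun z hz z' hz' hzz => ?_)
  · have hz' : z ∈ G := hz
    have hk := hfK z hz'
    have hx := hf z hz'
    have hkI := hK hk
    -- the point is not too far
    have hcoord : ∀ i, |pt B t z i| ≤ s * Nc := by
      intro i
      have h1 := hx i
      simp only at h1
      unfold Sq at hkI
      rw [Finset.mem_product, Finset.mem_Ico, Finset.mem_Ico] at hkI
      have hc : -(s * Nc) ≤ corner s (f z) i ∧ corner s (f z) i + s ≤ s * Nc := by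
        have key : ∀ q : ℤ, -(Nc:ℤ) ≤ q → q < Nc → -(s * Nc) ≤ s * q ∧ s * q + s ≤ s * Nc := by
          intro q hq1 hq2
          have hq1' : (-(Nc:ℝ)) ≤ q := by exact_mod_cast hq1
          have hq2' : (q:ℝ) + 1 ≤ Nc := by exact_mod_cast hq2
          constructor <;> nlinarith
        fin_cases i
        · simpa [corner_zero] using key _ hkI.1.1 hkI.1.2
        · simpa [corner_one] using key _ hkI.2.1 hkI.2.2
      rw [abs_le]
      constructor <;> linarith [h1.1, h1.2, hc.1, hc.2]
    have hnorm : ‖pt B t z‖ ≤ 2 * (s * Nc) := by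
      refine (norm_le_coord _).trans ?_
      linarith [hcoord 0, hcoord 1]
    have hzZ : z ∈ Sq Z := by
      by_contra hcon
      have hbig := big_of_not_mem hcon
      have hk2 := norm_comb B (z.1:ℝ) (z.2:ℝ)
      have h2 : ‖(z.1:ℝ) • B (e 0) + (z.2:ℝ) • B (e 1)‖ ≤ ‖pt B t z‖ + ‖t‖ := by
        have := norm_sub_le (pt B t z) t
        rwa [show pt B t z - t = (z.1:ℝ) • B (e 0) + (z.2:ℝ) • B (e 1) by unfold pt; abel] at this
      rcases hbig with h | h <;> linarith [hk2.1, hk2.2]
    have hcell : cell s (apt n (par n B t) z) = f z := cell_of_scell hs hx (hap z hzZ)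
    simp only [Finset.coe_inter, Set.mem_inter_iff, Finset.mem_coe]
    refine ⟨hk, ?_⟩
    unfold hit
    rw [Finset.mem_filter, Finset.mem_image]
    exact ⟨⟨z, hzZ, hcell⟩, hkI⟩
  · have hx := hf z hz
    have hx' := hf z' hz'
    rw [← hzz] at hx'
    have hd : ‖pt B t z - pt B t z'‖ < 1 := by
      refine (norm_le_coord _).trans_lt ?_
      have key : ∀ i, |(pt B t z - pt B t z') i| ≤ s := by
        intro i
        have h1 := hx i
        have h2 := hx' i
        simp only at h1 h2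
        simp only [PiLp.sub_apply]
        rw [abs_le]
        constructor <;> linarith [h1.1, h1.2, h2.1, h2.2]
      linarith [key 0, key 1]
    have e1 : pt B t z - pt B t z' = ((z.1 - z'.1 : ℤ) : ℝ) • B (e 0)
        + ((z.2 - z'.2 : ℤ) : ℝ) • B (e 1) := by
      unfold pt
      push_cast
      rw [sub_smul, sub_smul]
      abel
    rw [e1] at hd
    have h3 := norm_comb B ((z.1 - z'.1 : ℤ) : ℝ) ((z.2 - z'.2 : ℤ) : ℝ)
    have h4 : |((z.1 - z'.1 : ℤ) : ℝ)| < 1 := h3.1.trans_lt hd
    have h5 : |((z.2 - z'.2 : ℤ) : ℝ)| < 1 := h3.2.trans_lt hd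
    have h6 : |z.1 - z'.1| < 1 := by exact_mod_cast h4
    have h7 : |z.2 - z'.2| < 1 := by exact_mod_cast h5
    rw [Int.abs_lt_one_iff] at h6 h7
    ext
    · omega
    · omega

/-- The area under the step function. -/
lemma area_le {s : ℝ} (hs : 0 < s) {Nc : ℕ} {R : ℝ} (hR : 0 ≤ R) (m : ℕ)
    (hNc : 4 * R + 32 * (m + 1) < s * Nc) :
    4 * R ^ 2 ≤ (∑ k ∈ Sq Nc, W R (m + 1) (corner s k)) * s ^ 2 + (2 * (s * Nc)) ^ 2 * (s / 4) := by
  have hpos : 0 < s * Nc := by
    refine lt_of_le_of_lt ?_ hNc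
    positivity
  set cb : ℤ × ℤ → Pl → ℝ := fun k => ib (fun i => corner s k i) (fun i => corner s k i + s)
    with hcb
  set big : Pl → ℝ := ib (fun _ => -(s * Nc)) (fun _ => s * Nc) with hbig
  have hpw : ∀ x, W R (m + 1) x ≤ ∑ k ∈ Sq Nc, W R (m + 1) (corner s k) * cb k x
      + s / 4 * big x := by
    intro x
    have hsum0 : 0 ≤ ∑ k ∈ Sq Nc, W R (m + 1) (corner s k) * cb k x :=
      Finset.sum_nonneg (fun k _ => mul_nonneg (W_nonneg _ _ _) (ib_nonneg _ _ _))
    have hb0 : 0 ≤ s / 4 * big x := mul_nonneg (by positivity) (ib_nonneg _ _ _)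
    by_cases hx : 4 * R + 32 * (m + 1) < ‖x‖
    · rw [W_supp hR (m + 1) x (by push_cast; exact hx)]
      linarith
    · push Not at hx
      have hxi : ∀ i, |x i| < s * Nc := fun i => ((coord_le_norm x i).trans hx).trans_lt hNc
      have hbx : big x = 1 := by
        rw [hbig]
        unfold ib
        rw [Set.indicator_of_mem]
        intro i
        have := abs_lt.mp (hxi i)
        exact ⟨this.1.le, this.2.le⟩
      have hcl := cell_close hs x
      have hmem : cell s x ∈ Sq Nc := by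
        unfold Sq
        rw [Finset.mem_product, Finset.mem_Ico, Finset.mem_Ico]
        have key : ∀ y : ℝ, |y| < s * Nc → -(Nc:ℤ) ≤ ⌊y / s⌋ ∧ ⌊y / s⌋ < (Nc:ℤ) := by
          intro y hy
          rw [abs_lt] at hy
          constructor
          · rw [Int.le_floor, le_div_iff₀ hs]; push_cast; linarith [hy.1]
          · rw [Int.floor_lt, div_lt_iff₀ hs]; push_cast; linarith [hy.2]
        exact ⟨key _ (hxi 0), key _ (hxi 1)⟩
      have hcx : cb (cell s x) x = 1 := by
        simp only [hcb]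
        unfold ib
        rw [Set.indicator_of_mem]
        intro i
        exact ⟨(hcl i).1, (hcl i).2.le⟩
      have h1 : W R (m + 1) (corner s (cell s x)) * cb (cell s x) x
          ≤ ∑ k ∈ Sq Nc, W R (m + 1) (corner s k) * cb k x :=
        Finset.single_le_sum (f := fun k => W R (m + 1) (corner s k) * cb k x)
          (fun k _ => mul_nonneg (W_nonneg _ _ _) (ib_nonneg _ _ _)) hmem
      rw [hcx, mul_one] at h1
      have h2 := (abs_le.mp (W_lip R m x (corner s (cell s x)))).2
      have h30 : |x 0 - corner s (cell s x) 0| ≤ s := by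
        rw [abs_le]; constructor <;> linarith [(hcl 0).1, (hcl 0).2]
      have h31 : |x 1 - corner s (cell s x) 1| ≤ s := by
        rw [abs_le]; constructor <;> linarith [(hcl 1).1, (hcl 1).2]
      rw [hbx]
      linarith
  have hcbi : ∀ k, Integrable (cb k) := fun k => nice_integrable (ib_nice _ _)
  have hbi : Integrable big := nice_integrable (ib_nice _ _)
  have hint : Integrable (fun x => ∑ k ∈ Sq Nc, W R (m + 1) (corner s k) * cb k x) :=
    integrable_finsetSum _ (fun k _ => (hcbi k).const_mul _)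
  have h1 := integral_mono (nice_integrable (W_nice R (m + 1)))
    (hint.add (hbi.const_mul (s / 4))) (fun x => hpw x)
  rw [W_integral hR] at h1
  refine h1.trans (le_of_eq ?_)
  have h2 : ∫ x, ((fun x => ∑ k ∈ Sq Nc, W R (m + 1) (corner s k) * cb k x)
      + fun x => s / 4 * big x) x
      = (∑ k ∈ Sq Nc, ∫ x, W R (m + 1) (corner s k) * cb k x) + ∫ x, s / 4 * big x := by
    rw [integral_add' hint (hbi.const_mul (s / 4)),
      integral_finsetSum _ (fun k _ => (hcbi k).const_mul _)]
  rw [h2, integral_const_mul, Finset.sum_mul]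
  congr 1
  · refine Finset.sum_congr rfl (fun k _ => ?_)
    rw [integral_const_mul]
    simp only [hcb]
    rw [integral_ib _ _ (by linarith) (by linarith)]
    ring
  · rw [hbig, integral_ib _ _ (by linarith) (by linarith)]
    ring

/-- The volume of a union of shrunken cells. -/
lemma vol_cells {s τ : ℝ} (hs : 0 < s) (hτ : 0 < τ) (hst : 2 * τ ≤ s) (K : Finset (ℤ × ℤ)) :
    volume (⋃ k ∈ K, scell s τ k) = ENNReal.ofReal (K.card * (s - 2 * τ) ^ 2) := by
  rw [measure_biUnion_finset]
  · have h1 : ∀ k ∈ K, volume (scell s τ k) = ENNReal.ofReal ((s - 2 * τ) ^ 2) := by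
      intro k _
      unfold scell
      rw [vol_bx, sq, ENNReal.ofReal_mul (by linarith)]
      congr 2 <;> ring
    rw [Finset.sum_congr rfl h1, Finset.sum_const, nsmul_eq_mul,
      ENNReal.ofReal_mul (Nat.cast_nonneg _), ENNReal.ofReal_natCast]
  · intro k _ k' _ hkk
    refine Set.disjoint_left.mpr (fun x hx hx' => hkk ?_)
    have h1 := cell_of_scell hs hx (y := x) (fun i => by simpa using hτ)
    have h2 := cell_of_scell hs hx' (y := x) (fun i => by simpa using hτ)
    rw [← h1, ← h2]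
  · intro k _
    exact bx_meas _ _

end Pool.Agent.H2.Crit
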