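import Mathlib
import Pool.Agent.H2.Crit.Net2

/-!
# The set with few lattice points in every position
-/

open MeasureTheory Set

namespace Pool.Agent.H2.Crit

lemma recenter (B : Pl ≃ₗᵢ[ℝ] Pl) (t : Pl) : ∃ z0 : ℤ × ℤ, ‖pt B t z0‖ ≤ 1 := by
  set y := B.symm t with hy
  refine ⟨(-round (y 0), -round (y 1)), ?_⟩
  have h1 : pt B t (-round (y 0), -round (y 1))
      = B ((y 0 - round (y 0)) • e 0 + (y 1 - round (y 1)) • e 1) := by
    have ht : t = B (y 0 • e 0 + y 1 • e 1) := by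
      have : y 0 • e 0 + y 1 • e 1 = y := by
        ext i; fin_cases i <;> simp [e]
      rw [this, hy, B.apply_symm_apply]
    unfold pt
    simp only [map_add, map_smul] at ht ⊢
    conv_lhs => rw [ht]
    push_cast
    simp only [neg_smul, sub_smul]
    abel
  rw [h1, B.norm_map]
  refine (norm_add_le _ _).trans ?_
  rw [norm_smul, norm_smul, norm_e, norm_e, mul_one, mul_one, Real.norm_eq_abs, Real.norm_eq_abs]
  linarith [abs_sub_round (y 0), abs_sub_round (y 1)]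

lemma pt_add (B : Pl ≃ₗᵢ[ℝ] Pl) (t : Pl) (z0 z : ℤ × ℤ) :
    pt B t (z0 + z) = pt B (pt B t z0) z := by
  unfold pt
  simp only [Prod.fst_add, Prod.snd_add, Int.cast_add, add_smul]
  abel

lemma exNc (r : ℕ) (ε : ℝ) (hε : ε = (1 / 2) ^ (2 * r + 30)) :
    ∃ Nc : ℕ, ε * Nc = 512 * 2 ^ r ∧ ((Sq Nc).card : ℝ) ≤ 2 ^ (6 * r + 80) := by
  refine ⟨2 ^ (3 * r + 39), ?_, ?_⟩
  · rw [hε]
    push_cast
    have : (3 * r + 39) = (r + 9) + (2 * r + 30) := by ring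
    rw [this, pow_add (2:ℝ) (r + 9), mul_comm, mul_assoc, ← mul_pow, pow_add]
    norm_num
    ring
  · generalize hN : 2 ^ (3 * r + 39) = N
    unfold Sq
    rw [Finset.card_product, Int.card_Ico]
    have : ((N:ℤ) - -(N:ℤ)).toNat = 2 * N := by omega
    rw [this]
    have h2 : (N:ℝ) = 2 ^ (3 * r + 39) := by rw [← hN]; push_cast; rfl
    push_cast
    rw [h2]
    refine le_of_eq ?_
    ring

lemma exZ (r : ℕ) : ∃ Z : ℕ, (Z:ℝ) = 2048 * 2 ^ r := ⟨2048 * 2 ^ r, by push_cast; rfl⟩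

lemma exn (r : ℕ) : ∃ n : ℕ, 0 < n ∧
    (n:ℝ) = 2 ^ 80 * (2 ^ r * (2 ^ r * (2 ^ r * (2 ^ r * 2 ^ r)))) ∧
    (((2 * n + 1) ^ 6 : ℕ) : ℝ) ≤ 2 ^ (30 * r + 492) := by
  refine ⟨2 ^ 80 * (2 ^ r * (2 ^ r * (2 ^ r * (2 ^ r * 2 ^ r)))), by positivity, ?_, ?_⟩
  · push_cast; norm_num
  · push_cast
    have h1 : (1:ℝ) ≤ 2 ^ r := one_le_pow₀ (by norm_num)
    set x : ℝ := 2 ^ r with hx
    have h2 : 1 ≤ x * (x * (x * (x * x))) := by
      have : x * (x * (x * (x * x))) = x ^ 5 := by ring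
      rw [this]; exact one_le_pow₀ h1
    have h3 : (2:ℝ) ^ (30 * r + 492) = (4 * (2 ^ 80 * (x * (x * (x * (x * x)))))) ^ 6 := by
      obtain ⟨y, hy⟩ : ∃ y : ℝ, y = 2 ^ 82 := ⟨_, rfl⟩
      have hy6 : (2:ℝ) ^ 492 = y ^ 6 := by rw [hy, ← pow_mul]
      have hy2 : 4 * (2 ^ 80 * (x * (x * (x * (x * x))))) = y * (x * (x * (x * (x * x)))) := by
        rw [hy]; ring
      rw [hy2, pow_add, mul_comm 30 r, pow_mul, ← hx, hy6]
      ring
    rw [h3]
    refine pow_le_pow_left₀ (by positivity) ?_ 6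
    linarith

theorem main (R : ℝ) (hR : 2 ≤ R) (r : ℕ) (hr : 1 ≤ r) (hRr : R ≤ 2 ^ r)
    (hrR : (2:ℝ) ^ r ≤ 2 * R) :
    ∃ E : Set Pl, MeasurableSet E ∧ ENNReal.ofReal (4 * R ^ 2 - 2) ≤ volume E ∧
      ∀ (B : Pl ≃ₗᵢ[ℝ] Pl) (t : Pl) (G : Finset (ℤ × ℤ)), (∀ z ∈ G, pt B t z ∈ E) →
        (G.card : ℝ) ≤ 4 * R ^ 2 + 2 + 70000 * (Real.sqrt R * r) := by
  classical
  have hR0 : 0 < R := by linarith
  have hR4 : 4 ≤ R ^ 2 := by nlinarith
  have hr1 : (1:ℝ) ≤ r := by exact_mod_cast hr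
  have h2r : (2:ℝ) ≤ 2 ^ r := by
    calc (2:ℝ) = 2 ^ 1 := by norm_num
      _ ≤ 2 ^ r := pow_le_pow_right₀ (by norm_num) hr
  have hrlt : (r:ℝ) < 2 ^ r := by exact_mod_cast Nat.lt_two_pow_self
  -- parameters
  obtain ⟨ε, hε⟩ : ∃ ε : ℝ, ε = (1 / 2) ^ (2 * r + 30) := ⟨_, rfl⟩
  obtain ⟨Nc, hsN', hcardI⟩ := exNc r ε hε
  obtain ⟨Z, hZr⟩ := exZ r
  obtain ⟨n, hn0, hnr, hnP⟩ := exn r
  have hε0 : 0 < ε := by rw [hε]; positivity
  have hεR : ε * 4 ^ r = 1 / 2 ^ 30 := by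
    rw [hε, pow_add, pow_mul, mul_right_comm, ← mul_pow]; norm_num
  have h4r : (1:ℝ) ≤ 4 ^ r := one_le_pow₀ (by norm_num)
  have hεs : ε ≤ 1 / 2 ^ 30 := by rw [← hεR]; exact le_mul_of_one_le_right hε0.le h4r
  have hR2 : R ^ 2 ≤ 4 ^ r := by
    calc R ^ 2 ≤ (2 ^ r) ^ 2 := pow_le_pow_left₀ hR0.le hRr 2
      _ = 4 ^ r := by rw [← pow_mul, mul_comm, pow_mul]; norm_num
  have hsupp : 4 * R + 32 * ((4 * r + 19 : ℕ) + 1 : ℝ) < ε * Nc := by
    rw [hsN']; push_cast; linarith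
  have hZbig : 2 * (ε * Nc) + 1 < Z := by
    rw [hsN', hZr]; linarith
  -- approximation
  have hapτ : ∀ (B : Pl ≃ₗᵢ[ℝ] Pl) (t : Pl), ∀ z ∈ Sq Z, ∀ i,
      |apt n (par n B t) z i - pt B t z i| < ε ^ 2 := by
    intro B t z hz i
    refine (apt_close hn0 B t z i).trans_lt ?_
    unfold Sq at hz
    rw [Finset.mem_product, Finset.mem_Ico, Finset.mem_Ico] at hz
    have habs : ∀ q : ℤ, -(Z:ℤ) ≤ q → q < Z → |(q:ℝ)| ≤ Z := by
      intro q h1 h2
      rw [abs_le]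
      constructor
      · exact_mod_cast h1
      · exact_mod_cast h2.le
    have h1 := habs z.1 hz.1.1 hz.1.2
    have h2 := habs z.2 hz.2.1 hz.2.2
    have hn' : (0:ℝ) < n := by exact_mod_cast hn0
    rw [div_lt_iff₀ hn']
    have h3 : 1 + |(z.1:ℝ)| + |(z.2:ℝ)| ≤ 1 + 2 * (2048 * 2 ^ r) := by rw [← hZr]; linarith
    refine h3.trans_lt ?_
    have h4 : ε ^ 2 * n = 2 ^ 20 * 2 ^ r := by
      have e1 : ε * (2 ^ r * 2 ^ r) = 1 / 2 ^ 30 := by
        rw [← hεR]; congr 1; rw [← mul_pow]; norm_num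
      have e2 : ε ^ 2 * n = 2 ^ 80 * (ε * (2 ^ r * 2 ^ r)) * (ε * (2 ^ r * 2 ^ r)) * 2 ^ r := by
        rw [hnr]; ring
      rw [e2, e1]; norm_num
    rw [h4]
    linarith
  have hε1 : ε ≤ 1 := hεs.trans (by norm_num)
  have hapε : ∀ (B : Pl ≃ₗᵢ[ℝ] Pl) (t : Pl), ∀ z ∈ Sq Z, ∀ i,
      |apt n (par n B t) z i - pt B t z i| ≤ ε := by
    intro B t z hz i
    refine (hapτ B t z hz i).le.trans ?_
    rw [sq]
    exact mul_le_of_le_one_right hε0.le hε1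
  -- probabilities
  set p : ℤ × ℤ → ℝ := fun k => W R (4 * r + 19 + 1) (corner ε k) with hp
  have hp01 : ∀ k, 0 ≤ p k ∧ p k ≤ 1 := fun k => ⟨W_nonneg _ _ _, W_le_one _ _ _⟩
  have harea := area_le hε0 (Nc := Nc) hR0.le (4 * r + 19) (by exact_mod_cast hsupp)
  have herr : (2 * (ε * Nc)) ^ 2 * (ε / 4) ≤ 1 / 4 := by
    rw [hsN']
    have e1 : (2 * (512 * 2 ^ r : ℝ)) ^ 2 * (ε / 4) = 2 ^ 18 * (ε * 4 ^ r) := by
      have : (4:ℝ) ^ r = 2 ^ r * 2 ^ r := by rw [← mul_pow]; norm_num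
      rw [this]; ring
    rw [e1, hεR]; norm_num
  have hsp : 4 * R ^ 2 - 1 / 4 ≤ (∑ k ∈ Sq Nc, p k) * ε ^ 2 := by linarith
  have hε2 : ε ^ 2 ≤ 1 / 4 := by
    have : ε ^ 2 ≤ (1 / 2 ^ 30) ^ 2 := pow_le_pow_left₀ hε0.le hεs 2
    refine this.trans (by norm_num)
  have hsum : 1 < ∑ k ∈ Sq Nc, p k := by
    by_contra hcon
    push Not at hcon
    have : (∑ k ∈ Sq Nc, p k) * ε ^ 2 ≤ 1 * ε ^ 2 :=
      mul_le_mul_of_nonneg_right hcon (by positivity)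
    linarith
  -- the family of lattices
  set P : Finset (Fin 6 → ℤ) := (Fintype.piFinset (fun _ : Fin 6 => Finset.Icc (-(n:ℤ)) n)).filter
    (fun π => ∃ (B : Pl ≃ₗᵢ[ℝ] Pl) (t : Pl), ‖t‖ ≤ 1 ∧ par n B t = π) with hP
  set V0 : ℝ := 2000000 * (R * r) with hV0
  set l : ℝ := 70000 * (Real.sqrt R * r) with hl
  set q : ℝ := Real.sqrt R with hq
  have hqq : q * q = R := Real.mul_self_sqrt hR0.le
  have hq0 : 0 < q := Real.sqrt_pos.mpr hR0
  have hq1 : 1 ≤ q := by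
    rw [hq]; exact Real.one_le_sqrt.mpr (by linarith)
  set tt : ℝ := 7 / (400 * q) with htt
  have htt0 : 0 < tt := by positivity
  have htt1 : tt ≤ 1 := by
    rw [htt, div_le_one (by positivity)]; linarith
  have hV : ∀ π ∈ P, (((hit ε n Z Nc π).filter (fun k => 0 < p k ∧ p k < 1)).card : ℝ) ≤ V0 := by
    intro π hπ
    rw [hP, Finset.mem_filter] at hπ
    obtain ⟨_, B, t, ht, rfl⟩ := hπ
    refine (frac_hit_le hε0 (by linarith) hR0.le (4 * r + 19 + 1) B t (hapε B t)).trans ?_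
    push_cast
    rw [hV0]
    have h1 : 16 * (4 * (r:ℝ) + 19 + 1) + 6 ≤ 390 * r := by linarith
    have h2 : 2 * R + 16 * (4 * (r:ℝ) + 19 + 1) + 6 ≤ 782 * R := by linarith
    have h3 : (16 * (4 * (r:ℝ) + 19 + 1) + 6) * (2 * R + 16 * (4 * (r:ℝ) + 19 + 1) + 6)
        ≤ (390 * r) * (782 * R) := mul_le_mul h1 h2 (by positivity) (by positivity)
    nlinarith [mul_pos hR0 (by linarith : (0:ℝ) < r)]
  have hexp : tt ^ 2 * V0 - tt * l = -(1225 / 2 * r) := by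
    rw [htt, hV0, hl]
    have hR' : R = q * q := hqq.symm
    rw [hR']
    field_simp
    ring
  have hcardP : (P.card : ℝ) ≤ 2 ^ (30 * r + 492) := by
    refine le_trans ?_ hnP
    have h1 : P.card ≤ (2 * n + 1) ^ 6 := by
      refine (Finset.card_filter_le _ _).trans (le_of_eq ?_)
      rw [Fintype.card_piFinset]
      simp only [Int.card_Icc, Finset.prod_const, Finset.card_univ, Fintype.card_fin]
      congr 1
      omega
    exact_mod_cast h1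
  have hsmall : ((Sq Nc).card : ℝ) * P.card * Real.exp (tt ^ 2 * V0 - tt * l) ≤ 1 := by
    rw [hexp]
    have h1 : ((Sq Nc).card : ℝ) * P.card ≤ 2 ^ (6 * r + 80) * 2 ^ (30 * r + 492) :=
      mul_le_mul hcardI hcardP (Nat.cast_nonneg _) (by positivity)
    rw [← pow_add] at h1
    have h2 : (2:ℝ) ^ (6 * r + 80 + (30 * r + 492)) ≤ Real.exp (1225 / 2 * r) := by
      have e1 : (2:ℝ) ^ (6 * r + 80 + (30 * r + 492))
          = Real.exp (Real.log 2 * ((6 * r + 80 + (30 * r + 492) : ℕ) : ℝ)) := by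
        rw [mul_comm (Real.log 2) _, Real.exp_nat_mul, Real.exp_log (by norm_num)]
      rw [e1]
      refine Real.exp_le_exp.mpr ?_
      push_cast
      have e2 : Real.log 2 * (6 * (r:ℝ) + 80 + (30 * r + 492))
          ≤ 0.6931471808 * (6 * (r:ℝ) + 80 + (30 * r + 492)) :=
        mul_le_mul_of_nonneg_right Real.log_two_lt_d9.le (by positivity)
      linarith
    calc ((Sq Nc).card : ℝ) * P.card * Real.exp (-(1225 / 2 * r))
        ≤ Real.exp (1225 / 2 * r) * Real.exp (-(1225 / 2 * r)) :=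
          mul_le_mul_of_nonneg_right (h1.trans h2) (Real.exp_pos _).le
      _ = 1 := by rw [← Real.exp_add]; simp
  obtain ⟨K, hKI, hKcard, hKcount⟩ := chernoff (Sq Nc) P (fun π => hit ε n Z Nc π)
    (fun π _ => hit_sub ε n Z Nc π) p hp01 V0 tt l htt0 htt1 hV hsmall hsum
  refine ⟨⋃ k ∈ K, scell ε (ε ^ 2) k, ?_, ?_, ?_⟩
  · exact Finset.measurableSet_biUnion _ (fun k _ => bx_meas _ _)
  · have h2ε : 2 * ε ^ 2 ≤ ε := by
      rw [sq]; nlinarith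
    rw [vol_cells hε0 (by positivity) h2ε]
    refine ENNReal.ofReal_le_ofReal ?_
    have h1 : 4 * R ^ 2 - 1 / 2 ≤ K.card * ε ^ 2 := by
      have := mul_le_mul_of_nonneg_right hKcard (by positivity : 0 ≤ ε ^ 2)
      nlinarith
    have h3 : ε * R ^ 2 ≤ 1 / 2 ^ 30 := by
      rw [← hεR]; exact mul_le_mul_of_nonneg_left hR2 hε0.le
    have h4 : (K.card : ℝ) * (ε - 2 * ε ^ 2) ^ 2 = (K.card * ε ^ 2) * (1 - 2 * ε) ^ 2 := by ring
    rw [h4]
    have h5 : (4 * R ^ 2 - 1 / 2) * (1 - 2 * ε) ^ 2 ≤ (K.card * ε ^ 2) * (1 - 2 * ε) ^ 2 :=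
      mul_le_mul_of_nonneg_right h1 (sq_nonneg _)
    have h6 : 4 * R ^ 2 - 2 ≤ (4 * R ^ 2 - 1 / 2) * (1 - 2 * ε) ^ 2 := by
      have h7 : 1 - 4 * ε ≤ (1 - 2 * ε) ^ 2 := by nlinarith [sq_nonneg ε]
      have h8 : (4 * R ^ 2 - 1 / 2) * (1 - 4 * ε) ≤ (4 * R ^ 2 - 1 / 2) * (1 - 2 * ε) ^ 2 :=
        mul_le_mul_of_nonneg_left h7 (by nlinarith)
      nlinarith
    linarith
  · intro B t G hG
    obtain ⟨z0, hz0⟩ := recenter B t
    set t' := pt B t z0 with ht'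
    set G' := G.image (fun z => z - z0) with hG'
    have hcardG : G'.card = G.card :=
      Finset.card_image_of_injective _ (fun a b hab => sub_left_injective hab)
    have hG2 : ∀ z ∈ G', ∃ k ∈ K, pt B t' z ∈ scell ε (ε ^ 2) k := by
      intro z hz
      rw [hG', Finset.mem_image] at hz
      obtain ⟨y, hy, rfl⟩ := hz
      have h1 := hG y hy
      rw [ht', ← pt_add]
      rw [show z0 + (y - z0) = y by abel]
      simpa only [Set.mem_iUnion, exists_prop] using h1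
    have hcount := count_cells hε0 (by linarith) (by positivity) B t' hz0 hZbig (hapτ B t') K hKI
      G' hG2
    have hπ : par n B t' ∈ P := by
      rw [hP, Finset.mem_filter]
      exact ⟨par_mem B hz0, B, t', hz0, rfl⟩
    have h1 := hKcount _ hπ
    have h2 := sum_hit_le hε0 (n := n) (Z := Z) (Nc := Nc) (R := R) (4 * r + 19) B t' (hapε B t')
    have h3 := LS_W_le hR0.le B t' hr hRr
    have h4 : LS B t' (W R (4 * r + 20)) = ∑ z ∈ Sq Z, W R (4 * r + 19 + 1) (pt B t' z) := by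
      rw [show 4 * r + 20 = 4 * r + 19 + 1 by ring]
      refine LS_eq (K := 4 * R + 32 * ((4 * r + 19 + 1 : ℕ) : ℝ)) (fun x hx => W_supp hR0.le _ x hx)
        B t' ?_
      push_cast at hsupp ⊢
      linarith
    have h5 : ((Sq Z).card : ℝ) * (ε / 2) ≤ 1 := by
      have e0 : (Sq Z).card = (2 * Z) * (2 * Z) := by
        unfold Sq
        rw [Finset.card_product, Int.card_Ico]
        have : ((Z:ℤ) - -(Z:ℤ)).toNat = 2 * Z := by omega
        rw [this]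
      rw [e0]
      push_cast
      rw [hZr]
      have e1 : 2 * (2048 * (2:ℝ) ^ r) * (2 * (2048 * 2 ^ r)) * (ε / 2) = 2 ^ 23 * (ε * 4 ^ r) := by
        have : (4:ℝ) ^ r = 2 ^ r * 2 ^ r := by rw [← mul_pow]; norm_num
        rw [this]; ring
      rw [e1, hεR]; norm_num
    have h6 : (G.card : ℝ) ≤ ((K ∩ hit ε n Z Nc (par n B t')).card : ℝ) := by
      rw [← hcardG]; exact_mod_cast hcount
    linarith

end Pool.Agent.H2.Crit
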